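import Pool.Agent.Run7.h892.CG.Mul

/-!
# CG: quadratic fields and the 4-rank (helper892)
-/

set_option autoImplicit false

namespace Pool.Agent.Run7.h892.CG

open NumberField nonZeroDivisors IsDedekindDomain

/-- the kernel for the quadratic fields -/
lemma ker4 (UNI : S_UNI) (SQU : S_SQU) {K : Type} [Field K] [NumberField K]
    (hK : Module.finrank ℚ K = 2) {t : ℕ} (ht : 0 < t) (p : Fin t → ℕ) (hp : Function.Injective p)
    (hpp : ∀ i, (p i).Prime) (θ : K) (hθ : θ ^ 2 = ∏ i, (p i : K))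
    (P B : Fin t → Ideal (𝓞 K)) (α : Fin t → 𝓞 K) (hP : ∀ i, P i ^ 2 = Ideal.span {(p i : 𝓞 K)})
    (hB0 : ∀ i, B i ≠ ⊥) (hα : ∀ i, Ideal.span {α i} = P i * B i ^ 2) :
    (∀ i, ClassGroup.mk0 ⟨B i, mem_nonZeroDivisors_of_ne_zero (hB0 i)⟩ ^ 4 = 1) ∧
    Nat.card {x : Fin t → Fin 4 //
      ∏ i, ClassGroup.mk0 ⟨B i, mem_nonZeroDivisors_of_ne_zero (hB0 i)⟩ ^ (x i : ℕ) = 1} ≤ 64 := by
  classical
  have hp0 : ∀ i, (p i : K) ≠ 0 := fun i => Nat.cast_ne_zero.mpr (hpp i).ne_zero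
  have hp0' : ∀ i, (p i : 𝓞 K) ≠ 0 := fun i => Nat.cast_ne_zero.mpr (hpp i).ne_zero
  have hP0 : ∀ i, P i ≠ ⊥ := by
    intro i h0
    have h1 := hP i
    rw [h0, ← Ideal.zero_eq_bot, zero_pow two_ne_zero, eq_comm, Ideal.zero_eq_bot,
      Ideal.span_singleton_eq_bot] at h1
    exact hp0' i h1
  have hα0 : ∀ i, α i ≠ 0 := by
    intro i h0
    have h1 := hα i
    rw [h0, Ideal.span_singleton_eq_bot.mpr rfl, eq_comm] at h1
    have h2 : P i * B i ^ 2 ≠ 0 := mul_ne_zero (hP0 i) (pow_ne_zero 2 (hB0 i))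
    exact h2 h1
  have hα0' : ∀ i, (α i : K) ≠ 0 := by
    intro i h0
    exact hα0 i (RingOfIntegers.coe_injective (by simpa using h0))
  set a : Fin t → Kˣ := fun i => Units.mk0 (α i : K) (hα0' i) with ha
  set b : Fin t → Kˣ := fun i => Units.mk0 (p i : K) (hp0 i) with hb
  have hb1 : ∀ i, pr K (b i) = uI (P i) (hP0 i) ^ 2 := by
    intro i
    apply Units.ext
    rw [coe_toPrincipalIdeal, Units.val_pow_eq_pow_val, coe_uI, ← FractionalIdeal.coeIdeal_pow, hP i,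
      FractionalIdeal.coeIdeal_span_singleton]
    congr 1
  have ha1 : ∀ i, pr K (a i) = uI (P i) (hP0 i) * uI (B i) (hB0 i) ^ 2 := by
    intro i
    apply Units.ext
    rw [coe_toPrincipalIdeal, Units.val_mul, Units.val_pow_eq_pow_val, coe_uI, coe_uI,
      ← FractionalIdeal.coeIdeal_pow, ← FractionalIdeal.coeIdeal_mul, ← hα i,
      FractionalIdeal.coeIdeal_span_singleton]
    rfl
  have hBab : ∀ i, uI (B i) (hB0 i) ^ 4 * pr K (b i) = pr K (a i) ^ 2 := by
    intro i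
    rw [hb1, ha1, mul_pow, ← pow_mul, mul_comm]
  refine ⟨?_, ?_⟩
  · intro i
    have h1 : uI (B i) (hB0 i) ^ 4 = pr K (a i ^ 2 / b i) := by
      rw [map_div, map_pow, ← hBab, mul_div_cancel_right]
    rw [← mk_uI (B i) (hB0 i), ← map_pow, h1, mk_pr]
  set S := {x : Fin t → Fin 4 //
      ∏ i, ClassGroup.mk0 ⟨B i, mem_nonZeroDivisors_of_ne_zero (hB0 i)⟩ ^ (x i : ℕ) = 1} with hS
  have hβ : ∀ x : S, ∃ β : Kˣ, ∃ u : (𝓞 K)ˣ,
      β ^ 4 * mon b (fun i => ((x.1 i : ℕ) : ℤ)) =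
        eu K u * mon a (fun i => ((x.1 i : ℕ) : ℤ)) ^ 2 := by
    intro x
    have h1 : ClassGroup.mk K (mon (fun i => uI (B i) (hB0 i)) (fun i => ((x.1 i : ℕ) : ℤ))) = 1 := by
      rw [mon_map, mon_nat]
      refine Eq.trans (Finset.prod_congr rfl (fun i _ => ?_)) x.2
      rw [mk_uI]
    obtain ⟨β, hβ⟩ := exists_pr h1
    refine ⟨β, ?_⟩
    have h2 : pr K (β ^ 4 * mon b (fun i => ((x.1 i : ℕ) : ℤ)) /
        mon a (fun i => ((x.1 i : ℕ) : ℤ)) ^ 2) = 1 := by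
      rw [map_div, map_mul, map_pow, map_pow, hβ, mon_map, mon_map, ← mon_mul', ← mon_mul', div_eq_one]
      unfold mon
      rw [← Finset.prod_mul_distrib]
      refine Finset.prod_congr rfl (fun i _ => ?_)
      rw [← mul_zpow, hBab]
    obtain ⟨u, hu⟩ := unit_of_pr' h2
    exact ⟨u, by rw [hu, div_mul_cancel]⟩
  choose β u hβ using hβ
  obtain ⟨G₀, hG₀⟩ := UNI K 4 (by norm_num)
  set i₀ : Fin t := ⟨0, ht⟩
  set κ : S → Fin (4 ^ Module.finrank ℚ K) × Fin 4 := fun x => (G₀ (u x), x.1 i₀) with hκ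
  have hinj : Function.Injective κ := by
    intro x x' hxx
    have h1 : G₀ (u x) = G₀ (u x') := congrArg Prod.fst hxx
    have h2 : x.1 i₀ = x'.1 i₀ := congrArg Prod.snd hxx
    obtain ⟨w, hw⟩ := hG₀ _ _ h1
    set z : Fin t → ℤ := (fun i => ((x.1 i : ℕ) : ℤ)) - fun i => ((x'.1 i : ℕ) : ℤ) with hz
    have hz0 : z i₀ = 0 := by
      rw [hz, Pi.sub_apply, h2, sub_self]
    set η : Kˣ := β x / (β x' * eu K w) with hη
    have h3 : η ^ 4 * mon b z = mon a z ^ 2 := by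
      have e1 := hβ x
      have e2 := hβ x'
      rw [hw, map_mul, map_pow] at e1
      have e3 : β x ^ 4 = eu K (u x') * eu K w ^ 4 * mon a (fun i => ((x.1 i : ℕ) : ℤ)) ^ 2 /
          mon b (fun i => ((x.1 i : ℕ) : ℤ)) := by
        rw [eq_div_iff_mul_eq']
        exact e1
      have e4 : β x' ^ 4 = eu K (u x') * mon a (fun i => ((x'.1 i : ℕ) : ℤ)) ^ 2 /
          mon b (fun i => ((x'.1 i : ℕ) : ℤ)) := by
        rw [eq_div_iff_mul_eq']
        exact e2
      rw [hη, div_pow, mul_pow, e3, e4, mon_sub, mon_sub]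
      apply Units.ext
      push_cast
      field_simp
    have h4 : ((mon a z / η ^ 2 : Kˣ) : K) ^ 2 = ((1 : ℚ) : K) * ∏ i, (p i : K) ^ z i := by
      have e1 : (mon a z / η ^ 2) ^ 2 = mon b z := by
        rw [div_pow, ← h3, ← pow_mul, mul_div_cancel_left]
      rw [← Units.val_pow_eq_pow_val, e1, Rat.cast_one, one_mul]
      unfold mon
      rw [Units.coe_prod]
      refine Finset.prod_congr rfl (fun i _ => ?_)
      rw [Units.val_zpow_eq_zpow_val, hb, Units.val_mk0]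
    have h5 := SQU K t p θ _ 1 z ht hK hp hpp hθ (Or.inl rfl) h4
    have h6 : ∀ i, ∃ y, z i = 2 * y := by
      intro i
      have := h5 i i₀
      rw [hz0, sub_zero] at this
      obtain ⟨y, hy⟩ := this
      exact ⟨y, by rw [hy]; ring⟩
    choose y hy using h6
    have hzy : z = fun i => ((2 : ℕ) : ℤ) * y i := by
      funext i
      rw [hy i]
      norm_num
    have h7 : ((η ^ 2 * mon b y / mon a y ^ 2 : Kˣ) : K) ^ 2 = 1 := by
      have e1 : (η ^ 2 * mon b y / mon a y ^ 2) ^ 2 = 1 := by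
        have e2 := h3
        rw [hzy, mon_mul, mon_mul] at e2
        rw [div_pow, mul_pow, ← pow_mul, e2, div_self']
      rw [← Units.val_pow_eq_pow_val, e1, Units.val_one]
    have h8 : ∃ ε : ℚ, (ε = 1 ∨ ε = -1) ∧
        ((mon a y / η : Kˣ) : K) ^ 2 = (ε : K) * ∏ i, (p i : K) ^ y i := by
      have e1 : ∏ i, (p i : K) ^ y i = (mon b y : Kˣ) := by
        unfold mon
        rw [Units.coe_prod]
        refine Finset.prod_congr rfl (fun i _ => ?_)
        rw [Units.val_zpow_eq_zpow_val, hb, Units.val_mk0]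
      rw [e1]
      rcases mul_self_eq_one_iff.mp ((sq _).symm.trans h7) with h9 | h9
      · refine ⟨1, Or.inl rfl, ?_⟩
        push_cast at h9 ⊢
        field_simp at h9 ⊢
        rw [← h9]
      · refine ⟨-1, Or.inr rfl, ?_⟩
        push_cast at h9 ⊢
        field_simp at h9 ⊢
        rw [← neg_eq_iff_eq_neg] at h9
        rw [← h9]
    obtain ⟨ε, hε, h9⟩ := h8
    have h10 := SQU K t p θ _ ε y ht hK hp hpp hθ hε h9
    have hy0 : y i₀ = 0 := by
      have := hy i₀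
      rw [hz0] at this
      omega
    apply Subtype.ext
    funext i
    apply Fin.ext
    have h11 := h10 i i₀
    rw [hy0, sub_zero] at h11
    obtain ⟨k, hk⟩ := h11
    have h12 : ((x.1 i : ℕ) : ℤ) - ((x'.1 i : ℕ) : ℤ) = 4 * k := by
      have := hy i
      rw [hk, hz, Pi.sub_apply] at this
      linarith
    have h13 := (x.1 i).2
    have h14 := (x'.1 i).2
    omega
  have h1 := Nat.card_le_card_of_injective κ hinj
  refine h1.trans ?_
  rw [Nat.card_eq_fintype_card, Fintype.card_prod, Fintype.card_fin, Fintype.card_fin, hK]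
  norm_num

/-- the product of the other primes -/
def oth {t : ℕ} (p : Fin t → ℕ) (i : Fin t) : ℕ := ∏ j ∈ Finset.univ.erase i, p j

lemma mul_oth {t : ℕ} (p : Fin t → ℕ) (i : Fin t) : p i * oth p i = ∏ j, p j :=
  Finset.mul_prod_erase _ _ (Finset.mem_univ i)

theorem base4 (GRP : S_GRP) (UNI : S_UNI) (FLD : S_FLD) (PRI : S_PRI) (LEG : S_LEG) (BID : S_BID)
    (ALP : S_ALP) (SQU : S_SQU) : Sd 2 4 := by
  classical
  intro r
  obtain ⟨p, hp, hpp, hp8, hsq⟩ := PRI (r + 64)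
  by_cases hr0 : r + 64 = 0
  · omega
  have ht : 0 < r + 64 := Nat.pos_of_ne_zero hr0
  set i₀ : Fin (r + 64) := ⟨0, ht⟩
  have hdvd : ∀ i, ∀ q : ℕ, q.Prime → q ∣ oth p i → ∃ j, j ≠ i ∧ q = p j := by
    intro i q hq hd
    obtain ⟨j, hj, hqj⟩ := (hq.prime.dvd_finsetProd_iff _).mp hd
    exact ⟨j, Finset.ne_of_mem_erase hj, (Nat.prime_dvd_prime_iff_eq hq (hpp j)).mp hqj⟩
  have hndvd : ∀ i, ¬ p i ∣ oth p i := by
    intro i hd
    obtain ⟨j, hj, he⟩ := hdvd i (p i) (hpp i) hd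
    exact hj (hp he.symm)
  have hD : ∀ x : ℚ, x ^ 2 ≠ ((((∏ i, p i : ℕ) : 𝓞 ℚ)) : ℚ) := by
    intro x hx
    have h1 : IsSquare (((∏ i, p i : ℕ) : ℚ)) := ⟨x, by rw [← sq, hx]; simp⟩
    rw [Rat.isSquare_natCast_iff] at h1
    obtain ⟨n, hn⟩ := h1
    rw [← mul_oth p i₀] at hn
    have h2 : p i₀ ∣ n := by
      have h3 : p i₀ ∣ n * n := ⟨_, hn.symm⟩
      rcases (hpp i₀).dvd_mul.mp h3 with h | h <;> exact h
    obtain ⟨k, rfl⟩ := h2
    have h3 : oth p i₀ = p i₀ * (k * k) := by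
      apply Nat.eq_of_mul_eq_mul_left (hpp i₀).pos
      rw [hn]
      ring
    exact hndvd i₀ ⟨_, h3⟩
  obtain ⟨K, _, _, _, hK1, hK2, θ, hθ⟩ := FLD ℚ 2 Nat.prime_two ((∏ i, p i : ℕ) : 𝓞 ℚ) hD
  rw [Module.finrank_self, mul_one] at hK2
  have hθ' : θ ^ 2 = ((∏ i, p i : ℕ) : 𝓞 K) := by rw [hθ, map_natCast]
  have hθK : (θ : K) ^ 2 = ∏ i, (p i : K) := by
    have h1 := congrArg (algebraMap (𝓞 K) K) hθ'
    rw [map_pow, map_natCast] at h1
    rw [← Nat.cast_prod]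
    exact h1
  have hdata : ∀ i, ∃ (P B : Ideal (𝓞 K)) (α : 𝓞 K), P ^ 2 = Ideal.span {(p i : 𝓞 K)} ∧ B ≠ ⊥ ∧
      Ideal.span {α} = P * B ^ 2 := by
    intro i
    have h8 : oth p i % 8 = 1 := by
      have h1 : ∀ s : Finset (Fin (r + 64)), (∏ j ∈ s, p j) % 8 = 1 := by
        intro s
        induction s using Finset.induction_on with
        | empty => simp
        | insert a s ha ih => rw [Finset.prod_insert ha, Nat.mul_mod, hp8, ih]
      exact h1 _
    have hsqf : Squarefree (oth p i) := by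
      unfold oth
      refine Finset.squarefree_prod_of_pairwise_isCoprime ?_ ?_
      · intro a _ b _ hab
        exact Nat.coprime_iff_isRelPrime.mp
          ((Nat.coprime_primes (hpp a) (hpp b)).mpr (fun h => hab (hp h)))
      · intro j _
        exact (hpp j).prime.squarefree
    obtain ⟨T, Y, Z, hTYZ, hcop, hpT, hZ⟩ := LEG (p i) (oth p i) (hpp i) hsqf (hp8 i) h8 (hndvd i)
      (by
        intro q hq hd
        obtain ⟨j, hj, rfl⟩ := hdvd i q hq hd
        exact ⟨by have := hp8 j; omega, hsq i j (Ne.symm hj)⟩)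
      (by
        unfold oth
        rw [Nat.cast_prod]
        refine Finset.prod_induction _ IsSquare (fun a b ha hb => ha.mul hb) ⟨1, by simp⟩ ?_
        intro j hj
        exact hsq j i (Finset.ne_of_mem_erase hj))
    have hcopm : IsCoprime ((p i : ℕ) : ℤ) ((oth p i : ℕ) : ℤ) := by
      rw [Nat.isCoprime_iff_coprime]
      exact ((hpp i).coprime_iff_not_dvd).mpr (hndvd i)
    obtain ⟨P, α, α', hP, hα, hα', hs, hm⟩ := ALP K (p i) (oth p i) T Y Z θ
      (by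
        have := hp8 i
        rw [Int.odd_iff]
        omega)
      hcopm (by rw [hθ', ← mul_oth p i]; push_cast; rfl) hTYZ hpT
    have hp0 : ((p i : ℕ) : ℤ) ≠ 0 := by exact_mod_cast (hpp i).ne_zero
    obtain ⟨B, hB0, hB⟩ := BID K (p i) T Z α α' P hp0 hZ hP hα hα' hs hm hcop
    exact ⟨P, B, α, by rw [hP]; norm_cast, hB0, hB⟩
  choose P B α hP hB0 hα using hdata
  obtain ⟨h1, h2⟩ := ker4 UNI SQU hK2 ht p hp hpp (θ : K) hθK P B α hP hB0 hα
  exact ⟨K, inferInstance, inferInstance, hK2,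
    GRP (ClassGroup (𝓞 K)) 4 (r + 64) r 64 (by norm_num) le_rfl _ h1 h2⟩

end Pool.Agent.Run7.h892.CG
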