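import Pool.Agent.Run7.h892.CG.Cnt

/-!
# CG: the bound of the kernel on the elements of prime order (helper892)
-/

set_option autoImplicit false

namespace Pool.Agent.Run7.h892.CG

open NumberField nonZeroDivisors IsDedekindDomain

/-- **CNQ**. The kernel on the elements of order `p`. -/
def S_CNQ : Prop := ∀ (F K : Type) [Field F] [NumberField F] [Field K] [NumberField K]
  [Algebra F K] (ℓ m R : ℕ), ℓ.Prime → 0 < m → Module.finrank F K = ℓ →
  ∀ (c : Fin R → ClassGroup (𝓞 F)) (I P : Fin R → Ideal (𝓞 F)), Ide F R c I P → Ind m c →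
  ∀ (Q : Fin R → Ideal (𝓞 K)) (hQ : ∀ i, Q i ≠ ⊥),
  (∀ i, Q i ^ ℓ = (I i).map (algebraMap (𝓞 F) (𝓞 K))) →
  ∀ p : ℕ, p.Prime → p ∣ ℓ * m →
  Nat.card {y : Fin R → ZMod p //
    ∏ i, ClassGroup.mk0 ⟨Q i, mem_nonZeroDivisors_of_ne_zero (hQ i)⟩ ^ (ℓ * m / p * (y i).val) = 1} ≤
    p ^ (Module.finrank ℚ K + 1)

lemma claimC {F K : Type} [Field F] [NumberField F] [Field K] [NumberField K] [Algebra F K]
    {ℓ m R p : ℕ} {c : Fin R → ClassGroup (𝓞 F)} {I P : Fin R → Ideal (𝓞 F)}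
    (hp : p.Prime) (hpl : p ≠ ℓ) (hℓ : ℓ.Prime) (hm : 0 < m) (hpm : p ∣ m)
    (hK : Module.finrank F K = ℓ) (hI : Ide F R c I P)
    (hc : Ind m c) {γ : Fin R → Fˣ} (hγ : ∀ i, pr F (γ i) = uI (I i) (hI.ne i) ^ m)
    {z : Fin R → ℤ} {η : Kˣ} (h : η ^ p = io F K (mon γ z)) : ∀ i, (p : ℤ) ∣ z i := by
  obtain ⟨m', rfl⟩ := hpm
  have hm' : 0 < m' := Nat.pos_of_ne_zero (by rintro rfl; simp at hm)
  set N : Kˣ →* Fˣ := Units.map (Algebra.norm F)
  have h1 : N (io F K (mon γ z)) = mon γ z ^ ℓ := by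
    apply Units.ext
    change Algebra.norm F (algebraMap F K (mon γ z : Fˣ)) = _
    rw [Algebra.norm_algebraMap, hK, Units.val_pow_eq_pow_val]
  have h2 : N η ^ p = mon γ z ^ ℓ := by
    rw [← h1, ← h, map_pow]
  have h4 : pr F (mon γ z) = mon (fun i => uI (I i) (hI.ne i)) z ^ (p * m') := by
    rw [mon_map, ← mon_mul']
    congr 1
    funext i
    exact hγ i
  have h3 : (pr F (N η)) ^ p = (mon (fun i => uI (I i) (hI.ne i)) z ^ (m' * ℓ)) ^ p := by
    rw [← map_pow, h2, map_pow, h4, ← pow_mul, ← pow_mul]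
    congr 1
    ring
  have h5 := pow_inj hp.pos h3
  have h6 := congrArg (ClassGroup.mk F) h5
  rw [mk_pr, ← mon_mul, mon_map] at h6
  have h7 := hc.2 (fun i => ((m' * ℓ : ℕ) : ℤ) * z i) (by
    rw [h6]
    unfold mon
    refine Finset.prod_congr rfl (fun i _ => ?_)
    dsimp only
    rw [mk_uI, hI.cls])
  intro i
  have h8 := h7 i
  push_cast at h8
  rw [mul_comm (p : ℤ), mul_assoc] at h8
  have h9 : (p : ℤ) ∣ ℓ * z i := (mul_dvd_mul_iff_left (by exact_mod_cast hm'.ne')).mp h8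
  rcases (Nat.prime_iff_prime_int.mp hp).dvd_or_dvd h9 with h10 | h10
  · exact absurd ((Nat.prime_dvd_prime_iff_eq hp hℓ).mp (by exact_mod_cast h10)) hpl
  · exact h10

theorem t_CNQ : S_UNI → S_RAD → S_CNQ := by
  classical
  intro UNI RAD F K _ _ _ _ _ ℓ m R hℓ hm hK c I P hI hc Q hQ hQI p hp hpd
  have hlm : 0 < ℓ * m := Nat.mul_pos hℓ.pos hm
  have : NeZero p := ⟨hp.ne_zero⟩
  -- generators
  have hg : ∀ i, ∃ g : 𝓞 F, I i ^ m = Ideal.span {g} ∧ (g : F) ≠ 0 := by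
    intro i
    have h1 : ClassGroup.mk0 ⟨I i ^ m, mem_nonZeroDivisors_of_ne_zero (pow_ne_zero m (hI.ne i))⟩ =
        (1 : ClassGroup (𝓞 F)) := by
      rw [← mk_uI (I i ^ m) (pow_ne_zero m (hI.ne i)), uI_pow _ (hI.ne i), map_pow, mk_uI, hI.cls, hc.1]
    rw [ClassGroup.mk0_eq_one_iff] at h1
    obtain ⟨g, hg⟩ := h1.principal
    refine ⟨g, hg, ?_⟩
    intro h0
    have h2 : g = 0 := RingOfIntegers.coe_injective (by simpa using h0)
    have h3 : I i ^ m = ⊥ := by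
      have : I i ^ m = Submodule.span (𝓞 F) {g} := hg
      rw [this, h2, Submodule.span_zero_singleton]
    exact pow_ne_zero m (hI.ne i) h3
  choose g hg hg0 using hg
  set γ : Fin R → Fˣ := fun i => Units.mk0 (g i : F) (hg0 i) with hγdef
  have hγ : ∀ i, pr F (γ i) = uI (I i) (hI.ne i) ^ m := by
    intro i
    have hne : Ideal.span {g i} ≠ ⊥ := by rw [← hg i]; exact pow_ne_zero m (hI.ne i)
    rw [hγdef, pr_mk0 _ _ hne, ← uI_pow _ _ _ (pow_ne_zero m (hI.ne i))]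
    apply Units.ext
    rw [coe_uI, coe_uI, hg i]
  have hqγ : ∀ i, uI (Q i) (hQ i) ^ (ℓ * m) = pr K (io F K (γ i)) := by
    intro i
    have h1 : Q i ^ (ℓ * m) = Ideal.span {algebraMap (𝓞 F) (𝓞 K) (g i)} := by
      rw [pow_mul, hQI, ← Ideal.map_pow, hg, Ideal.map_span, Set.image_singleton]
    have hne : Ideal.span {algebraMap (𝓞 F) (𝓞 K) (g i)} ≠ ⊥ := by
      rw [← h1]; exact pow_ne_zero _ (hQ i)
    have hval : ((algebraMap (𝓞 F) (𝓞 K) (g i) : 𝓞 K) : K) = algebraMap F K (g i) := rfl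
    have hne' : ((algebraMap (𝓞 F) (𝓞 K) (g i) : 𝓞 K) : K) ≠ 0 := by
      rw [hval]
      exact (map_ne_zero _).mpr (hg0 i)
    have h2 := pr_mk0 (algebraMap (𝓞 F) (𝓞 K) (g i)) hne' hne
    have h3 : io F K (γ i) = Units.mk0 ((algebraMap (𝓞 F) (𝓞 K) (g i) : 𝓞 K) : K) hne' :=
      Units.ext rfl
    rw [h3, h2, ← uI_pow _ _ _ (pow_ne_zero _ (hQ i))]
    apply Units.ext
    rw [coe_uI, coe_uI, h1]
  obtain ⟨k, hk⟩ := hpd
  have hkp : ℓ * m / p = k := by rw [hk]; exact Nat.mul_div_cancel_left k hp.pos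
  rw [hkp]
  set S := {y : Fin R → ZMod p //
    ∏ i, ClassGroup.mk0 ⟨Q i, mem_nonZeroDivisors_of_ne_zero (hQ i)⟩ ^ (k * (y i).val) = 1} with hS
  rcases isEmpty_or_nonempty S with hE | hE
  · rw [Nat.card_of_isEmpty]; exact Nat.zero_le _
  -- the elements `β`
  have hβ : ∀ x : S, ∃ β : Kˣ, ∃ u : (𝓞 K)ˣ,
      β ^ p = eu K u * io F K (mon γ (fun i => (((x.1 i).val : ℕ) : ℤ))) := by
    intro x
    have h1 : ClassGroup.mk K (mon (fun i => uI (Q i) (hQ i)) (fun i => ((k * (x.1 i).val : ℕ) : ℤ))) = 1 := by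
      rw [mon_map, mon_nat]
      refine Eq.trans (Finset.prod_congr rfl (fun i _ => ?_)) x.2
      rw [mk_uI]
    obtain ⟨β, hβ⟩ := exists_pr h1
    refine ⟨β, ?_⟩
    have h2 : pr K (β ^ p / io F K (mon γ (fun i => (((x.1 i).val : ℕ) : ℤ)))) = 1 := by
      rw [map_div, map_pow, hβ, mon_map, mon_map, div_eq_one]
      have h3 : mon (fun i => uI (Q i) (hQ i)) (fun i => ((k * (x.1 i).val : ℕ) : ℤ)) =
          mon (fun i => uI (Q i) (hQ i)) (fun i => (((x.1 i).val : ℕ) : ℤ)) ^ k := by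
        rw [← mon_mul]
        congr 1
      rw [h3, ← pow_mul, mul_comm k p, ← hk, ← mon_mul']
      congr 1
      funext i
      exact hqγ i
    obtain ⟨u, hu⟩ := unit_of_pr' h2
    exact ⟨u, by rw [hu, div_mul_cancel]⟩
  choose β u hβ using hβ
  obtain ⟨G₀, hG₀⟩ := UNI K p hp.pos
  -- two elements with the same key
  have hpair : ∀ x x' : S, G₀ (u x) = G₀ (u x') → ∃ w : (𝓞 K)ˣ, (β x / (β x' * eu K w)) ^ p =
      io F K (mon γ ((fun i => (((x.1 i).val : ℕ) : ℤ)) - fun i => (((x'.1 i).val : ℕ) : ℤ))) := by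
    intro x x' h
    obtain ⟨w, hw⟩ := hG₀ _ _ h
    refine ⟨w, ?_⟩
    rw [div_pow, mul_pow, hβ, hβ, hw, map_mul, map_pow, mon_sub, map_div, div_eq_div_iff_mul_eq_mul]
    ac_rfl
  have heq : ∀ x x' : S, (∀ i, (p : ℤ) ∣ (((x.1 i).val : ℕ) : ℤ) - (((x'.1 i).val : ℕ) : ℤ)) → x = x' := by
    intro x x' h
    apply Subtype.ext
    funext i
    have h1 := (ZMod.intCast_zmod_eq_zero_iff_dvd _ _).mpr (h i)
    push_cast at h1
    rw [ZMod.natCast_zmod_val, ZMod.natCast_zmod_val, sub_eq_zero] at h1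
    exact h1
  let _ : Fintype S := Fintype.ofFinite S
  have hfib : ∀ a ∈ (Finset.univ : Finset S).image (fun x => G₀ (u x)),
      ((Finset.univ : Finset S).filter fun x => G₀ (u x) = a).card ≤ p := by
    intro a ha
    by_cases hpl : p = ℓ
    · subst hpl
      obtain ⟨x₁, _, hx₁⟩ := Finset.mem_image.mp ha
      have hw : ∀ x : S, ∃ w : (𝓞 K)ˣ, G₀ (u x) = a → (β x / (β x₁ * eu K w)) ^ p =
        io F K (mon γ ((fun i => (((x.1 i).val : ℕ) : ℤ)) - fun i => (((x₁.1 i).val : ℕ) : ℤ))) := by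
        intro x
        by_cases h : G₀ (u x) = a
        · obtain ⟨w, hw⟩ := hpair x x₁ (h.trans hx₁.symm)
          exact ⟨w, fun _ => hw⟩
        · exact ⟨1, fun h' => absurd h' h⟩
      choose w hw using hw
      refine fib RAD hℓ hm hK hI hc hγ _ (fun x => β x / (β x₁ * eu K (w x)))
        (fun x i => (((x.1 i).val : ℕ) : ℤ)) ?_ ?_
      · intro x hx x' hx'
        rw [Finset.mem_filter] at hx hx'
        rw [div_pow, hw x hx.2, hw x' hx'.2, ← map_div, mon_sub, mon_sub, div_div_div_cancel_right]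
        congr 1
        exact (mon_sub γ _ _).symm
      · intro x _ x' _ hd
        exact heq x x' hd
    · refine le_trans (Finset.card_le_one.mpr ?_) hp.one_lt.le
      intro x hx x' hx'
      rw [Finset.mem_filter] at hx hx'
      obtain ⟨w, hw⟩ := hpair x x' (hx.2.trans hx'.2.symm)
      have hpm : p ∣ m := by
        have h1 : p ∣ ℓ * m := ⟨k, hk⟩
        rcases hp.dvd_mul.mp h1 with h2 | h2
        · exact absurd ((Nat.prime_dvd_prime_iff_eq hp hℓ).mp h2) hpl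
        · exact h2
      exact heq x x' (claimC hp hpl hℓ hm hpm hK hI hc hγ hw)
  have hcard := Finset.card_le_mul_card_image (f := fun x => G₀ (u x)) (Finset.univ : Finset S) p hfib
  rw [Nat.card_eq_fintype_card, ← Finset.card_univ]
  refine hcard.trans ?_
  have h1 : ((Finset.univ : Finset S).image (fun x => G₀ (u x))).card ≤ p ^ Module.finrank ℚ K := by
    refine (Finset.card_le_card (Finset.subset_univ _)).trans ?_
    rw [Finset.card_univ, Fintype.card_fin]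
  calc p * ((Finset.univ : Finset S).image (fun x => G₀ (u x))).card
      ≤ p * p ^ Module.finrank ℚ K := Nat.mul_le_mul_left _ h1
    _ = p ^ (Module.finrank ℚ K + 1) := by ring

end Pool.Agent.Run7.h892.CG
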