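import Pool.Agent.Run7.h892.CG.Grp

/-!
# CG: the bound of the kernel (helper892)
-/

set_option autoImplicit false

namespace Pool.Agent.Run7.h892.CG

open NumberField nonZeroDivisors IsDedekindDomain

section one
variable {L : Type} [Field L] [NumberField L]

lemma uI_pow (I : Ideal (𝓞 L)) (h : I ≠ ⊥) (n : ℕ) (h' : I ^ n ≠ ⊥) :
    uI (I ^ n) h' = uI I h ^ n := by
  apply Units.ext
  rw [coe_uI, Units.val_pow_eq_pow_val, coe_uI, FractionalIdeal.coeIdeal_pow]

lemma pr_mk0 (g : 𝓞 L) (h : (g : L) ≠ 0) (h' : Ideal.span {g} ≠ ⊥) :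
    pr L (Units.mk0 (g : L) h) = uI (Ideal.span {g}) h' := by
  apply Units.ext
  rw [coe_toPrincipalIdeal, coe_uI, Units.val_mk0, FractionalIdeal.coeIdeal_span_singleton]

/-- units of the ring of integers as elements of the field -/
noncomputable abbrev eu (L : Type) [Field L] [NumberField L] : (𝓞 L)ˣ →* Lˣ :=
  Units.map (algebraMap (𝓞 L) L).toMonoidHom

lemma unit_of_pr' {x : Lˣ} (h : pr L x = 1) : ∃ u : (𝓞 L)ˣ, eu L u = x := by
  obtain ⟨u, hu⟩ := unit_of_pr h
  exact ⟨u, Units.ext hu⟩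

end one

/-- monomials -/
def mon {A : Type} [CommGroup A] {R : ℕ} (γ : Fin R → A) (z : Fin R → ℤ) : A := ∏ i, γ i ^ z i

section mon
variable {A B : Type} [CommGroup A] [CommGroup B] {R : ℕ}

lemma mon_sub (γ : Fin R → A) (z z' : Fin R → ℤ) : mon γ (z - z') = mon γ z / mon γ z' := by
  unfold mon
  rw [← Finset.prod_div_distrib]
  refine Finset.prod_congr rfl (fun i _ => ?_)
  rw [Pi.sub_apply, zpow_sub, div_eq_mul_inv]

lemma mon_mul (γ : Fin R → A) (m : ℕ) (z : Fin R → ℤ) :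
    mon γ (fun i => m * z i) = mon γ z ^ m := by
  simp only [mon, ← Finset.prod_pow]
  refine Finset.prod_congr rfl (fun i _ => ?_)
  rw [mul_comm, zpow_mul, zpow_natCast]

lemma mon_mul' (γ : Fin R → A) (m : ℕ) (z : Fin R → ℤ) :
    mon (fun i => γ i ^ m) z = mon γ z ^ m := by
  simp only [mon, ← Finset.prod_pow]
  refine Finset.prod_congr rfl (fun i _ => ?_)
  rw [← zpow_natCast, ← zpow_natCast, ← zpow_mul, ← zpow_mul, mul_comm]

lemma mon_map (f : A →* B) (γ : Fin R → A) (z : Fin R → ℤ) :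
    f (mon γ z) = mon (fun i => f (γ i)) z := by
  simp only [mon, map_prod, map_zpow]

lemma mon_nat (γ : Fin R → A) (x : Fin R → ℕ) :
    mon γ (fun i => (x i : ℤ)) = ∏ i, γ i ^ x i := by
  simp only [mon, zpow_natCast]

end mon

section two

variable {F K : Type} [Field F] [NumberField F] [Field K] [NumberField K] [Algebra F K]

/-- inclusion of the units -/
noncomputable abbrev io (F K : Type) [Field F] [Field K] [Algebra F K] : Fˣ →* Kˣ :=
  Units.map (algebraMap F K).toMonoidHom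

omit [NumberField F] [NumberField K] in
lemma io_inj : Function.Injective (io F K) :=
  Units.map_injective (algebraMap F K).injective

variable {ℓ m R : ℕ} {c : Fin R → ClassGroup (𝓞 F)} {I P : Fin R → Ideal (𝓞 F)}

lemma claimA (hℓ : 0 < ℓ) (hm : 0 < m) (hK : Module.finrank F K = ℓ) (hI : Ide F R c I P)
    (hc : Ind m c) {γ : Fin R → Fˣ} (hγ : ∀ i, pr F (γ i) = uI (I i) (hI.ne i) ^ m)
    {z : Fin R → ℤ} {η : Kˣ} (h : η ^ (ℓ * m) = io F K (mon γ z)) : ∀ i, (m : ℤ) ∣ z i := by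
  set N : Kˣ →* Fˣ := Units.map (Algebra.norm F)
  have h1 : N (io F K (mon γ z)) = mon γ z ^ ℓ := by
    apply Units.ext
    change Algebra.norm F (algebraMap F K (mon γ z : Fˣ)) = _
    rw [Algebra.norm_algebraMap, hK, Units.val_pow_eq_pow_val]
  have h2 : (N η ^ m) ^ ℓ = mon γ z ^ ℓ := by
    rw [← h1, ← h, map_pow, ← pow_mul, mul_comm]
  have h3 : (pr F (N η)) ^ m = pr F (mon γ z) := by
    apply pow_inj hℓ
    rw [← map_pow, ← map_pow, h2, map_pow]
  have h4 : pr F (mon γ z) = mon (fun i => uI (I i) (hI.ne i)) z ^ m := by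
    rw [mon_map, ← mon_mul']
    congr 1
    funext i
    exact hγ i
  rw [h4] at h3
  have h5 := pow_inj hm h3
  have h6 := congrArg (ClassGroup.mk F) h5
  rw [mk_pr, mon_map] at h6
  apply hc.2
  rw [h6]
  unfold mon
  refine Finset.prod_congr rfl (fun i _ => ?_)
  dsimp only
  rw [mk_uI, hI.cls]

lemma claimB (hℓ : ℓ.Prime) (hm : 0 < m) (hI : Ide F R c I P)
    (hc : Ind m c) {γ : Fin R → Fˣ} (hγ : ∀ i, pr F (γ i) = uI (I i) (hI.ne i) ^ m)
    {z : Fin R → ℤ} {f : Fˣ} (h : f ^ ℓ = mon γ z) : ∀ i, (ℓ : ℤ) ∣ z i := by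
  have h1 : pr F f ^ ℓ = mon (fun i => uI (I i) (hI.ne i)) (fun i => m * z i) := by
    rw [← map_pow, h, mon_map, mon_mul, ← mon_mul']
    congr 1
    funext i
    exact hγ i
  by_cases hd : ℓ ∣ m
  · obtain ⟨m', rfl⟩ := hd
    have hm' : 0 < m' := Nat.pos_of_mul_pos_left hm |> fun _ => by
      rcases Nat.eq_zero_or_pos m' with h0 | h0
      · subst h0; simp at hm
      · exact h0
    have h2 : mon (fun i => uI (I i) (hI.ne i)) (fun i => ((ℓ * m' : ℕ) : ℤ) * z i) =
        mon (fun i => uI (I i) (hI.ne i)) (fun i => (m' : ℤ) * z i) ^ ℓ := by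
      rw [← mon_mul]
      congr 1
      funext i
      push_cast
      ring
    rw [h2] at h1
    have h3 := pow_inj hℓ.pos h1
    have h6 := congrArg (ClassGroup.mk F) h3
    rw [mk_pr, mon_map] at h6
    have h7 : ∏ i, c i ^ ((m' : ℤ) * z i) = 1 := by
      rw [h6]
      unfold mon
      refine Finset.prod_congr rfl (fun i _ => ?_)
      dsimp only
      rw [mk_uI, hI.cls]
    intro i
    have h8 := hc.2 _ h7 i
    push_cast at h8
    rw [mul_comm (ℓ : ℤ)] at h8
    exact (mul_dvd_mul_iff_left (by exact_mod_cast hm'.ne')).mp h8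
  · intro i
    have h2 := val_dvd hI h1 i
    have hp : Prime (ℓ : ℤ) := Nat.prime_iff_prime_int.mp hℓ
    rcases hp.dvd_or_dvd h2 with h3 | h3
    · exact absurd (by exact_mod_cast h3) hd
    · exact h3

/-- a fibre of the keys has at most `ℓ` elements -/
lemma fib (RAD : S_RAD) (hℓ : ℓ.Prime) (hm : 0 < m) (hK : Module.finrank F K = ℓ)
    (hI : Ide F R c I P) (hc : Ind m c) {γ : Fin R → Fˣ}
    (hγ : ∀ i, pr F (γ i) = uI (I i) (hI.ne i) ^ m) {S : Type} (A : Finset S) (η : S → Kˣ)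
    (y : S → Fin R → ℤ)
    (h1 : ∀ a ∈ A, ∀ b ∈ A, (η a / η b) ^ ℓ = io F K (mon γ (y a - y b)))
    (h2 : ∀ a ∈ A, ∀ b ∈ A, (∀ i, (ℓ : ℤ) ∣ y a i - y b i) → a = b) : A.card ≤ ℓ := by
  classical
  rcases A.eq_empty_or_nonempty with rfl | ⟨a₀, ha₀⟩
  · simp
  have : FiniteDimensional F K := Module.finite_of_finrank_pos (by rw [hK]; exact hℓ.pos)
  set e := A.equivFin.symm
  refine RAD F K ℓ hℓ hK A.card (fun i => ((η (e i) / η a₀ : Kˣ) : K)) (fun i => Units.ne_zero _) ?_ ?_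
  · intro i
    refine ⟨(mon γ (y (e i) - y a₀) : Fˣ), ?_⟩
    have h3 := congrArg Units.val (h1 (e i) (e i).2 a₀ ha₀)
    rw [Units.val_pow_eq_pow_val] at h3
    exact h3
  · intro i j hij f hf
    have hf0 : f ≠ 0 := by
      rintro rfl
      rw [map_zero, zero_mul] at hf
      exact Units.ne_zero _ hf
    have h3 : η (e i) / η a₀ = io F K (Units.mk0 f hf0) * (η (e j) / η a₀) := by
      apply Units.ext
      rw [hf, Units.val_mul]
      rfl
    have h4 : η (e i) / η (e j) = io F K (Units.mk0 f hf0) := by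
      have h9 : η (e i) / η (e j) = (η (e i) / η a₀) / (η (e j) / η a₀) :=
        (div_div_div_cancel_right _ _ _).symm
      rw [h9, h3, mul_div_assoc, div_self', mul_one]
    have h5 := h1 (e i) (e i).2 (e j) (e j).2
    rw [h4, ← map_pow] at h5
    have h6 := io_inj h5
    have h7 := claimB hℓ hm hI hc hγ h6
    have h8 := h2 (e i) (e i).2 (e j) (e j).2 h7
    exact hij (e.injective (Subtype.ext h8))

end two

theorem t_CNT : S_UNI → S_RAD → S_CNT := by
  classical
  intro UNI RAD F K _ _ _ _ _ ℓ m R hℓ hm hK c I P hI hc Q hQ hQI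
  have hlm : 0 < ℓ * m := Nat.mul_pos hℓ.pos hm
  -- generators
  have hg : ∀ i, ∃ g : 𝓞 F, I i ^ m = Ideal.span {g} ∧ (g : F) ≠ 0 := by
    intro i
    have h1 : ClassGroup.mk0 ⟨I i ^ m, mem_nonZeroDivisors_of_ne_zero (pow_ne_zero m (hI.ne i))⟩ =
        (1 : ClassGroup (𝓞 F)) := by
      rw [← mk_uI (I i ^ m) (pow_ne_zero m (hI.ne i)), uI_pow _ (hI.ne i), map_pow, mk_uI, hI.cls, hc.1]
    rw [ClassGroup.mk0_eq_one_iff] at h1
    obtain ⟨g, hg⟩ := h1.principal
    refine ⟨g, hg, ?_⟩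
    intro h0
    have h2 : g = 0 := RingOfIntegers.coe_injective (by simpa using h0)
    have h3 : I i ^ m = ⊥ := by
      have : I i ^ m = Submodule.span (𝓞 F) {g} := hg
      rw [this, h2, Submodule.span_zero_singleton]
    exact pow_ne_zero m (hI.ne i) h3
  choose g hg hg0 using hg
  set γ : Fin R → Fˣ := fun i => Units.mk0 (g i : F) (hg0 i) with hγdef
  have hγ : ∀ i, pr F (γ i) = uI (I i) (hI.ne i) ^ m := by
    intro i
    have hne : Ideal.span {g i} ≠ ⊥ := by rw [← hg i]; exact pow_ne_zero m (hI.ne i)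
    rw [hγdef, pr_mk0 _ _ hne, ← uI_pow _ _ _ (pow_ne_zero m (hI.ne i))]
    apply Units.ext
    rw [coe_uI, coe_uI, hg i]
  have hqγ : ∀ i, uI (Q i) (hQ i) ^ (ℓ * m) = pr K (io F K (γ i)) := by
    intro i
    have h1 : Q i ^ (ℓ * m) = Ideal.span {algebraMap (𝓞 F) (𝓞 K) (g i)} := by
      rw [pow_mul, hQI, ← Ideal.map_pow, hg, Ideal.map_span, Set.image_singleton]
    have hne : Ideal.span {algebraMap (𝓞 F) (𝓞 K) (g i)} ≠ ⊥ := by
      rw [← h1]; exact pow_ne_zero _ (hQ i)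
    have hval : ((algebraMap (𝓞 F) (𝓞 K) (g i) : 𝓞 K) : K) = algebraMap F K (g i) := rfl
    have hne' : ((algebraMap (𝓞 F) (𝓞 K) (g i) : 𝓞 K) : K) ≠ 0 := by
      rw [hval]
      exact (map_ne_zero _).mpr (hg0 i)
    have h2 := pr_mk0 (algebraMap (𝓞 F) (𝓞 K) (g i)) hne' hne
    have h3 : io F K (γ i) = Units.mk0 ((algebraMap (𝓞 F) (𝓞 K) (g i) : 𝓞 K) : K) hne' :=
      Units.ext rfl
    rw [h3, h2, ← uI_pow _ _ _ (pow_ne_zero _ (hQ i))]
    apply Units.ext
    rw [coe_uI, coe_uI, h1]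
  refine ⟨?_, ?_⟩
  · intro i
    rw [← mk_uI (Q i) (hQ i), ← map_pow, hqγ, mk_pr]
  set S := {x : Fin R → Fin (ℓ * m) //
    ∏ i, ClassGroup.mk0 ⟨Q i, mem_nonZeroDivisors_of_ne_zero (hQ i)⟩ ^ (x i : ℕ) = 1} with hS
  rcases isEmpty_or_nonempty S with hE | hE
  · rw [Nat.card_of_isEmpty]; exact Nat.zero_le _
  -- the elements `β`
  have hβ : ∀ x : S, ∃ β : Kˣ, ∃ u : (𝓞 K)ˣ,
      β ^ (ℓ * m) = eu K u * io F K (mon γ (fun i => ((x.1 i : ℕ) : ℤ))) := by
    intro x
    have h1 : ClassGroup.mk K (mon (fun i => uI (Q i) (hQ i)) (fun i => ((x.1 i : ℕ) : ℤ))) = 1 := by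
      rw [mon_map, mon_nat]
      refine Eq.trans (Finset.prod_congr rfl (fun i _ => ?_)) x.2
      rw [mk_uI]
    obtain ⟨β, hβ⟩ := exists_pr h1
    refine ⟨β, ?_⟩
    have h2 : pr K (β ^ (ℓ * m) / io F K (mon γ (fun i => ((x.1 i : ℕ) : ℤ)))) = 1 := by
      rw [map_div, map_pow, hβ, mon_map, mon_map, ← mon_mul', div_eq_one]
      congr 1
      funext i
      exact hqγ i
    obtain ⟨u, hu⟩ := unit_of_pr' h2
    exact ⟨u, by rw [hu, div_mul_cancel]⟩
  choose β u hβ using hβ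
  obtain ⟨G₀, hG₀⟩ := UNI K (ℓ * m) hlm
  set k1 : S → Fin ((ℓ * m) ^ Module.finrank ℚ K) := fun x => G₀ (u x) with hk1
  set rep : S → S := fun x => Function.invFun k1 (k1 x) with hrep
  have hrep1 : ∀ x, k1 (rep x) = k1 x := fun x => Function.invFun_eq ⟨x, rfl⟩
  have hη : ∀ x : S, ∃ η : Kˣ, η ^ (ℓ * m) =
      io F K (mon γ ((fun i => ((x.1 i : ℕ) : ℤ)) - fun i => (((rep x).1 i : ℕ) : ℤ))) := by
    intro x
    obtain ⟨w, hw⟩ := hG₀ _ _ (hrep1 x).symm
    refine ⟨β x / (β (rep x) * eu K w), ?_⟩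
    rw [div_pow, mul_pow, hβ, hβ, hw, map_mul, map_pow, mon_sub, map_div, div_eq_div_iff_mul_eq_mul]
    ac_rfl
  choose η hη using hη
  have hy : ∀ x : S, ∃ y : Fin R → ℤ, ∀ i, ((x.1 i : ℕ) : ℤ) - (((rep x).1 i : ℕ) : ℤ) = m * y i := by
    intro x
    have h1 := claimA hℓ.pos hm hK hI hc hγ (hη x)
    choose y hy using h1
    exact ⟨y, hy⟩
  choose y hy using hy
  set ζ : S → Kˣ := fun x => η x ^ ℓ / io F K (mon γ (y x)) with hζ
  have hζm : ∀ x, ζ x ^ m = 1 := by
    intro x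
    have h1 : ((fun i => ((x.1 i : ℕ) : ℤ)) - fun i => (((rep x).1 i : ℕ) : ℤ)) =
        fun i => (m : ℤ) * y x i := by
      funext i
      exact hy x i
    rw [hζ]
    simp only
    rw [div_pow, ← pow_mul, hη, h1, mon_mul, map_pow, div_self']
  have : NeZero m := ⟨hm.ne'⟩
  let _ : Fintype (rootsOfUnity m K) := Fintype.ofFinite _
  set κ : S → Fin ((ℓ * m) ^ Module.finrank ℚ K) × rootsOfUnity m K :=
    fun x => (k1 x, ⟨ζ x, (mem_rootsOfUnity m _).mpr (hζm x)⟩) with hκ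
  let _ : Fintype S := Fintype.ofFinite S
  have hfib : ∀ a ∈ (Finset.univ : Finset S).image κ,
      ((Finset.univ : Finset S).filter fun x => κ x = a).card ≤ ℓ := by
    intro a _
    refine fib RAD hℓ hm hK hI hc hγ _ η y ?_ ?_
    · intro x hx x' hx'
      rw [Finset.mem_filter] at hx hx'
      have h1 : κ x = κ x' := hx.2.trans hx'.2.symm
      have h2 : ζ x = ζ x' := congrArg (fun t => ((Prod.snd t : rootsOfUnity m K) : Kˣ)) h1
      rw [hζ] at h2
      simp only at h2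
      rw [div_eq_div_iff_mul_eq_mul] at h2
      rw [div_pow, mon_sub, map_div, div_eq_div_iff_mul_eq_mul, h2, mul_comm]
    · intro x hx x' hx' hd
      rw [Finset.mem_filter] at hx hx'
      have h1 : κ x = κ x' := hx.2.trans hx'.2.symm
      have h2 : k1 x = k1 x' := congrArg Prod.fst h1
      have h3 : rep x = rep x' := by rw [hrep]; simp only [h2]
      apply Subtype.ext
      funext i
      apply Fin.ext
      have h4 := hy x i
      have h5 := hy x' i
      rw [← h3] at h5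
      obtain ⟨k, hk⟩ := hd i
      have h6 : ((x.1 i : ℕ) : ℤ) - ((x'.1 i : ℕ) : ℤ) = ((ℓ * m : ℕ) : ℤ) * k := by
        have : ((x.1 i : ℕ) : ℤ) - ((x'.1 i : ℕ) : ℤ) = m * (y x i - y x' i) := by linarith
        rw [this, hk]
        push_cast
        ring
      have h7 := (x.1 i).2
      have h8 := (x'.1 i).2
      have h9 : ((x.1 i : ℕ) : ℤ) < ((ℓ * m : ℕ) : ℤ) := by exact_mod_cast h7
      have h10 : ((x'.1 i : ℕ) : ℤ) < ((ℓ * m : ℕ) : ℤ) := by exact_mod_cast h8
      have h11 : k = 0 := by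
        have hpos : (0 : ℤ) < ((ℓ * m : ℕ) : ℤ) := by exact_mod_cast hlm
        have h12 : k < 1 := by
          by_contra hcon
          push Not at hcon
          nlinarith [Int.natCast_nonneg (x'.1 i : ℕ)]
        have h13 : -1 < k := by
          by_contra hcon
          push Not at hcon
          nlinarith [Int.natCast_nonneg (x.1 i : ℕ)]
        omega
      rw [h11, mul_zero] at h6
      omega
  have hcard := Finset.card_le_mul_card_image (f := κ) (Finset.univ : Finset S) ℓ hfib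
  rw [Nat.card_eq_fintype_card, ← Finset.card_univ]
  refine hcard.trans ?_
  have h1 : ((Finset.univ : Finset S).image κ).card ≤
      Fintype.card (Fin ((ℓ * m) ^ Module.finrank ℚ K) × rootsOfUnity m K) := by
    rw [← Finset.card_univ]
    exact Finset.card_le_card (Finset.subset_univ _)
  rw [Fintype.card_prod, Fintype.card_fin] at h1
  have h2 : Fintype.card (rootsOfUnity m K) ≤ m := by
    rw [← Nat.card_eq_fintype_card]
    exact card_rootsOfUnity K m
  calc ℓ * ((Finset.univ : Finset S).image κ).card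
      ≤ ℓ * ((ℓ * m) ^ Module.finrank ℚ K * m) :=
        Nat.mul_le_mul_left _ (h1.trans (Nat.mul_le_mul_left _ h2))
    _ = (ℓ * m) ^ Module.finrank ℚ K * (ℓ * m) := by ring

end Pool.Agent.Run7.h892.CG
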