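import Pool.Agent.Run7.h892.CG.Stm

/-!
# CG: fractional ideals, classes, units (helper892)
-/

set_option autoImplicit false

namespace Pool.Agent.Run7.h892.CG

open NumberField nonZeroDivisors IsDedekindDomain

variable {L : Type} [Field L] [NumberField L]

/-- the group of fractional ideals -/
abbrev G (L : Type) [Field L] [NumberField L] : Type := (FractionalIdeal (𝓞 L)⁰ L)ˣ

/-- principal fractional ideals -/
noncomputable abbrev pr (L : Type) [Field L] [NumberField L] : Lˣ →* G L := toPrincipalIdeal (𝓞 L) L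

/-- a nonzero ideal as a unit -/
noncomputable abbrev uI (I : Ideal (𝓞 L)) (h : I ≠ ⊥) : G L :=
  FractionalIdeal.mk0 L ⟨I, mem_nonZeroDivisors_of_ne_zero h⟩

lemma coe_uI (I : Ideal (𝓞 L)) (h : I ≠ ⊥) : ((uI I h : G L) : FractionalIdeal (𝓞 L)⁰ L) = I :=
  FractionalIdeal.coe_mk0 _ _

lemma mk_uI (I : Ideal (𝓞 L)) (h : I ≠ ⊥) :
    ClassGroup.mk L (uI I h) = ClassGroup.mk0 ⟨I, mem_nonZeroDivisors_of_ne_zero h⟩ :=
  ClassGroup.mk_mk0 L _

lemma mk_pr (x : Lˣ) : ClassGroup.mk L (pr L x) = 1 := by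
  rw [ClassGroup.mk_eq_one_iff, coe_toPrincipalIdeal, FractionalIdeal.coe_spanSingleton]
  exact ⟨⟨x, rfl⟩⟩

lemma exists_pr {I : G L} (h : ClassGroup.mk L I = 1) : ∃ x : Lˣ, pr L x = I := by
  rw [ClassGroup.mk_eq_one_iff] at h
  obtain ⟨x, hx⟩ := h.principal
  have hx' : (I : FractionalIdeal (𝓞 L)⁰ L) = FractionalIdeal.spanSingleton _ x := by
    apply Subtype.coe_injective
    simp only [FractionalIdeal.val_eq_coe, hx, FractionalIdeal.coe_spanSingleton]
  have h0 : x ≠ 0 := by
    intro h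
    rw [h, FractionalIdeal.spanSingleton_zero] at hx'
    exact I.ne_zero hx'
  refine ⟨Units.mk0 x h0, ?_⟩
  rw [toPrincipalIdeal_eq_iff, hx', Units.val_mk0]

lemma unit_of_pr {x : Lˣ} (h : pr L x = 1) : ∃ u : (𝓞 L)ˣ, ((u : 𝓞 L) : L) = x := by
  have key : ∀ y : Lˣ, pr L y = 1 → ∃ z : 𝓞 L, (z : L) = y := by
    intro y hy
    rw [toPrincipalIdeal_eq_iff, Units.val_one] at hy
    have h1 : (y : L) ∈ (1 : FractionalIdeal (𝓞 L)⁰ L) := by
      rw [← hy]
      exact FractionalIdeal.mem_spanSingleton_self _ _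
    rw [FractionalIdeal.mem_one_iff] at h1
    exact h1
  obtain ⟨a, ha⟩ := key x h
  obtain ⟨b, hb⟩ := key x⁻¹ (by rw [map_inv, h, inv_one])
  have hab : a * b = 1 := by
    apply RingOfIntegers.coe_injective
    rw [map_mul, map_one]
    change (a : L) * (b : L) = 1
    rw [ha, hb, Units.mul_inv]
  refine ⟨⟨a, b, hab, by rw [mul_comm, hab]⟩, ha⟩

lemma torsion_free {H : G L} {k : ℕ} (hk : 0 < k) (h : H ^ k = 1) : H = 1 := by
  have h1 : ∀ v : HeightOneSpectrum (𝓞 L), FractionalIdeal.count L v (H : FractionalIdeal _ L) = 0 := by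
    intro v
    have h2 := FractionalIdeal.count_pow L v k (H : FractionalIdeal (𝓞 L)⁰ L)
    have h3 : ((H : FractionalIdeal (𝓞 L)⁰ L)) ^ k = 1 := by
      rw [← Units.val_pow_eq_pow_val, h, Units.val_one]
    rw [h3, FractionalIdeal.count_one] at h2
    have h4 : (k : ℤ) ≠ 0 := by exact_mod_cast hk.ne'
    rcases mul_eq_zero.mp h2.symm with h5 | h5
    · exact absurd h5 h4
    · exact h5
  have h2 := FractionalIdeal.finprod_heightOneSpectrum_factorization' L (I := (H : FractionalIdeal (𝓞 L)⁰ L))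
    H.ne_zero
  simp only [h1, zpow_zero, finprod_one] at h2
  exact Units.ext h2.symm

lemma pow_inj {H H' : G L} {k : ℕ} (hk : 0 < k) (h : H ^ k = H' ^ k) : H = H' := by
  have : (H * H'⁻¹) ^ k = 1 := by rw [mul_pow, inv_pow, h, mul_inv_cancel]
  exact mul_inv_eq_one.mp (torsion_free hk this)

/-- the `P_i`-adic valuation shows that `∏ I_i ^ z_i = H ^ ℓ` implies `ℓ ∣ z_i` -/
lemma val_dvd {R : ℕ} {c : Fin R → ClassGroup (𝓞 L)} {I P : Fin R → Ideal (𝓞 L)}
    (hI : Ide L R c I P) {ℓ : ℕ} {z : Fin R → ℤ} {H : G L}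
    (h : H ^ ℓ = ∏ i, uI (I i) (hI.ne i) ^ z i) (i : Fin R) : (ℓ : ℤ) ∣ z i := by
  set v : HeightOneSpectrum (𝓞 L) := ⟨P i, hI.prime i, hI.ne' i⟩ with hv
  have h1 : FractionalIdeal.count L v ((I i : Ideal (𝓞 L)) : FractionalIdeal (𝓞 L)⁰ L) = 1 := by
    rw [FractionalIdeal.count_coe L v (hI.ne i)]
    have h2 : (Associates.mk v.asIdeal).count (Associates.mk (I i)).factors = 1 := by
      have hirr : Irreducible (Associates.mk v.asIdeal) :=
        (Associates.irreducible_mk).mpr v.irreducible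
      have hne : Associates.mk (I i) ≠ 0 := Associates.mk_ne_zero.mpr (hI.ne i)
      have hle : 1 ≤ (Associates.mk v.asIdeal).count (Associates.mk (I i)).factors := by
        rw [← Associates.prime_pow_dvd_iff_le hne hirr, pow_one]
        exact Associates.mk_dvd_mk.mpr (hI.dvd i)
      have hlt : ¬ 2 ≤ (Associates.mk v.asIdeal).count (Associates.mk (I i)).factors := by
        rw [← Associates.prime_pow_dvd_iff_le hne hirr, ← Associates.mk_pow]
        intro hd
        exact hI.sq i (Associates.mk_dvd_mk.mp hd)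
      omega
    rw [h2]
    rfl
  have h2 : ∀ j, j ≠ i → FractionalIdeal.count L v ((I j : Ideal (𝓞 L)) : FractionalIdeal (𝓞 L)⁰ L) = 0 := by
    intro j hj
    rw [FractionalIdeal.count_coe L v (hI.ne j)]
    have h3 : (Associates.mk v.asIdeal).count (Associates.mk (I j)).factors = 0 := by
      have hirr : Irreducible (Associates.mk v.asIdeal) :=
        (Associates.irreducible_mk).mpr v.irreducible
      have hne : Associates.mk (I j) ≠ 0 := Associates.mk_ne_zero.mpr (hI.ne j)
      by_contra hc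
      have hle : 1 ≤ (Associates.mk v.asIdeal).count (Associates.mk (I j)).factors :=
        Nat.one_le_iff_ne_zero.mpr hc
      rw [← Associates.prime_pow_dvd_iff_le hne hirr, pow_one] at hle
      have hd := Associates.mk_dvd_mk.mp hle
      have hu := (hI.cop i j (Ne.symm hj)).isUnit_of_dvd' (hI.dvd i) hd
      exact v.irreducible.not_isUnit hu
    rw [h3]
    rfl
  have h3 := congrArg (fun x : G L => FractionalIdeal.count L v (x : FractionalIdeal (𝓞 L)⁰ L)) h
  simp only [Units.val_pow_eq_pow_val] at h3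
  rw [FractionalIdeal.count_pow, Units.coe_prod, FractionalIdeal.count_prod] at h3
  · have h4 : ∀ j, FractionalIdeal.count L v (((uI (I j) (hI.ne j) ^ z j : G L)) : FractionalIdeal (𝓞 L)⁰ L) =
        z j * FractionalIdeal.count L v ((I j : Ideal (𝓞 L)) : FractionalIdeal (𝓞 L)⁰ L) := by
      intro j
      rw [Units.val_zpow_eq_zpow_val, FractionalIdeal.count_zpow, coe_uI]
    simp only [h4] at h3
    rw [Finset.sum_eq_single i, h1, mul_one] at h3
    · exact ⟨_, h3.symm⟩
    · intro j _ hj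
      rw [h2 j hj, mul_zero]
    · intro hi
      exact absurd (Finset.mem_univ i) hi
  · intro j _
    exact (uI (I j) (hI.ne j) ^ z j).ne_zero

end Pool.Agent.Run7.h892.CG
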