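import Pool.Agent.Run7.h892.CG.Cnt

/-!
# CG: multiplication of the degree (helper892)
-/

set_option autoImplicit false

namespace Pool.Agent.Run7.h892.CG

open NumberField nonZeroDivisors IsDedekindDomain

/-- `(ℤ/m)^r` embeds into the group `C` -/
def Emb (m r : ℕ) (C : Type) [CommGroup C] : Prop :=
  ∃ f : Multiplicative (Fin r → ZMod m) →* C, Function.Injective f

lemma ind_of_emb {C : Type} [CommGroup C] {m R : ℕ} (h : Emb m R C) :
    ∃ c : Fin R → C, Ind m c := by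
  obtain ⟨f, hf⟩ := h
  refine ⟨fun i => f (Multiplicative.ofAdd (Pi.single i 1)), ?_, ?_⟩
  · intro i
    rw [← map_pow, ← ofAdd_nsmul, ← Pi.single_smul]
    have : (m • (1 : ZMod m)) = 0 := by simp
    rw [this, Pi.single_zero, ofAdd_zero, map_one]
  · intro z hz i
    have h1 : f (Multiplicative.ofAdd (fun i => ((z i : ℤ) : ZMod m))) = 1 := by
      rw [← hz]
      have h2 : (fun i => ((z i : ℤ) : ZMod m)) = ∑ i, z i • (Pi.single i 1 : Fin R → ZMod m) := by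
        funext j
        rw [Finset.sum_apply]
        simp [Pi.single_apply]
      rw [h2, ofAdd_sum, map_prod]
      refine Finset.prod_congr rfl (fun i _ => ?_)
      rw [ofAdd_zsmul, map_zpow]
    have h2 : Multiplicative.ofAdd (fun i => ((z i : ℤ) : ZMod m)) = 1 := hf (by rw [h1, map_one])
    have h3 : (fun i => ((z i : ℤ) : ZMod m)) = 0 := by
      have := congrArg Multiplicative.toAdd h2
      simpa using this
    have h4 := congrFun h3 i
    exact (ZMod.intCast_zmod_eq_zero_iff_dvd _ _).mp h4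

lemma emb_of_ind (GRP : S_GRP) {C : Type} [CommGroup C] {m R : ℕ} (hm : 0 < m)
    {c : Fin (R + 1) → C} (h : Ind m c) : Emb m R C := by
  refine GRP C m (R + 1) R 1 hm le_rfl c h.1 ?_
  rw [Finite.card_le_one_iff_subsingleton]
  have key : ∀ x : Fin (R + 1) → Fin m, ∏ i, c i ^ (x i : ℕ) = 1 → ∀ i, (x i : ℕ) = 0 := by
    intro x hx i
    have h1 := h.2 (fun i => ((x i : ℕ) : ℤ)) (by simpa using hx) i
    have h2 : m ∣ (x i : ℕ) := by exact_mod_cast h1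
    exact Nat.eq_zero_of_dvd_of_lt h2 (x i).2
  refine ⟨?_⟩
  rintro ⟨x, hx⟩ ⟨y, hy⟩
  apply Subtype.ext
  funext i
  apply Fin.ext
  rw [key x hx i, key y hy i]

lemma emb_dvd (GRP : S_GRP) {C : Type} [CommGroup C] {m m' R : ℕ} (hm : 0 < m) (hd : m' ∣ m)
    (h : Emb m (R + 1) C) : Emb m' R C := by
  obtain ⟨c, hc⟩ := ind_of_emb h
  obtain ⟨k, rfl⟩ := hd
  have hm' : 0 < m' := Nat.pos_of_ne_zero (by rintro rfl; simp at hm)
  have hk : 0 < k := Nat.pos_of_ne_zero (by rintro rfl; simp at hm)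
  refine emb_of_ind GRP (c := fun i => c i ^ k) hm' ⟨?_, ?_⟩
  · intro i
    rw [← pow_mul, mul_comm k m']
    exact hc.1 i
  · intro z hz i
    have h1 := hc.2 (fun i => k * z i) (by
      rw [← hz]
      refine Finset.prod_congr rfl (fun i _ => ?_)
      rw [zpow_mul, zpow_natCast]) i
    push_cast at h1
    rw [mul_comm (m' : ℤ)] at h1
    exact (mul_dvd_mul_iff_left (by exact_mod_cast hk.ne')).mp h1

lemma pow_all (POW : S_POW) {K : Type} [Field K] [NumberField K] {ℓ R : ℕ} (hℓ : 0 < ℓ)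
    {θ : 𝓞 K} {I : Fin R → Ideal (𝓞 K)} {J : Ideal (𝓞 K)}
    (h : Ideal.span {θ ^ ℓ} = (∏ i, I i) * J) (hc : ∀ i j, i ≠ j → IsCoprime (I i) (I j))
    (hJ : IsCoprime (∏ i, I i) J) (i : Fin R) : ∃ Q : Ideal (𝓞 K), Q ^ ℓ = I i := by
  classical
  refine POW K ℓ θ (I i) ((∏ j ∈ Finset.univ.erase i, I j) * J) hℓ ?_ ?_
  · rw [h, ← mul_assoc, Finset.mul_prod_erase _ _ (Finset.mem_univ i)]
  · refine IsCoprime.mul_right (IsCoprime.prod_right fun j hj => ?_) ?_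
    · exact hc i j (Finset.ne_of_mem_erase hj).symm
    · exact IsCoprime.prod_left_iff.mp hJ i (Finset.mem_univ i)

/-- the bound for a prime degree -/
def bd (d m ℓ : ℕ) : ℕ := (ℓ * m) ^ (ℓ * d) * (ℓ * m) + 1

theorem step (GRP : S_GRP) (UNI : S_UNI) (RAD : S_RAD) (IDL : S_IDL) (FLD : S_FLD) (POW : S_POW)
    {d m ℓ : ℕ} (hℓ : ℓ.Prime) (hm : 0 < m) (F : Type) [Field F] [NumberField F]
    (hF : Module.finrank ℚ F = d) (r : ℕ) (h : Emb m (r + bd d m ℓ) (ClassGroup (𝓞 F))) :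
    ∃ (K : Type) (_ : Field K) (_ : NumberField K), Nonempty (F →+* K) ∧
      Module.finrank ℚ K = ℓ * d ∧ Emb (ℓ * m) r (ClassGroup (𝓞 K)) := by
  classical
  obtain ⟨c, hc⟩ := ind_of_emb h
  obtain ⟨I, P, J, δ, hI, hδ0, hδ, hcop⟩ := IDL F _ c
  have hR : 0 < r + bd d m ℓ := by unfold bd; omega
  set i₀ : Fin (r + bd d m ℓ) := ⟨0, hR⟩
  have hδF : ∀ x : F, x ^ ℓ ≠ (δ : F) := by
    intro x hx
    have hint : IsIntegral ℤ x := by
      have h1 : IsIntegral ℤ (x ^ ℓ) := by rw [hx]; exact RingOfIntegers.isIntegral_coe δ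
      exact IsIntegral.of_pow hℓ.pos h1
    set y : 𝓞 F := ⟨x, hint⟩ with hy
    have hyδ : y ^ ℓ = δ := by
      apply RingOfIntegers.coe_injective
      rw [map_pow]
      exact hx
    rw [← hyδ] at hδ
    obtain ⟨Q, hQ⟩ := pow_all POW hℓ.pos hδ hI.cop hcop i₀
    have hP : Prime (P i₀) := Ideal.prime_of_isPrime (hI.ne' i₀) (hI.prime i₀)
    have h1 : P i₀ ∣ Q := hP.dvd_of_dvd_pow (by rw [hQ]; exact hI.dvd i₀)
    apply hI.sq i₀
    rw [← hQ]
    exact (pow_dvd_pow (P i₀) hℓ.two_le).trans (pow_dvd_pow_of_dvd h1 ℓ)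
  obtain ⟨K, _, _, _, hK1, hK2, θ, hθ⟩ := FLD F ℓ hℓ δ hδF
  refine ⟨K, inferInstance, inferInstance, ⟨algebraMap F K⟩, by rw [hK2, hF], ?_⟩
  set φ : 𝓞 F →+* 𝓞 K := algebraMap (𝓞 F) (𝓞 K)
  have hφ : Function.Injective φ := FaithfulSMul.algebraMap_injective (𝓞 F) (𝓞 K)
  have hθI : Ideal.span {θ ^ ℓ} = (∏ i, (I i).map φ) * J.map φ := by
    rw [hθ, ← Set.image_singleton, ← Ideal.map_span, hδ]
    change Ideal.mapHom φ _ = (∏ i, Ideal.mapHom φ (I i)) * Ideal.mapHom φ J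
    rw [map_mul, map_prod]
  have hQ : ∀ i, ∃ Q : Ideal (𝓞 K), Q ^ ℓ = (I i).map φ := by
    refine pow_all POW hℓ.pos hθI (fun i j hij => ?_) ?_
    · exact (hI.cop i j hij).map (Ideal.mapHom φ)
    · have h1 := hcop.map (Ideal.mapHom φ)
      rw [map_prod] at h1
      exact h1
  choose Q hQ using hQ
  have hQ0 : ∀ i, Q i ≠ ⊥ := by
    intro i h0
    have h1 : (I i).map φ = ⊥ := by
      rw [← hQ i, h0]
      exact zero_pow hℓ.pos.ne'
    rw [Ideal.map_eq_bot_iff_of_injective hφ] at h1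
    exact hI.ne i h1
  obtain ⟨h1, h2⟩ := t_CNT UNI RAD F K ℓ m _ hℓ hm hK1 c I P hI hc Q hQ0 hQ
  have hdeg : Module.finrank ℚ K = ℓ * d := by rw [hK2, hF]
  rw [hdeg] at h2
  refine GRP (ClassGroup (𝓞 K)) (ℓ * m) (r + bd d m ℓ) r _ (Nat.mul_pos hℓ.pos hm) ?_ _ h1 h2
  unfold bd
  omega

/-- **Multiplication of the degree**, for a given field -/
theorem mult (GRP : S_GRP) (UNI : S_UNI) (RAD : S_RAD) (IDL : S_IDL) (FLD : S_FLD) (POW : S_POW)
    (n : ℕ) : 0 < n → ∀ d m : ℕ, 0 < m → ∃ C : ℕ, ∀ (F : Type) [Field F] [NumberField F],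
      Module.finrank ℚ F = d → ∀ r : ℕ, Emb m (r + C) (ClassGroup (𝓞 F)) →
      ∃ (K : Type) (_ : Field K) (_ : NumberField K), Nonempty (F →+* K) ∧
        Module.finrank ℚ K = n * d ∧ Emb (n * m) r (ClassGroup (𝓞 K)) := by
  induction n using Nat.recOnMul with
  | zero => intro h; exact absurd h (lt_irrefl 0)
  | one =>
    intro _ d m _
    refine ⟨0, fun F _ _ hF r h => ⟨F, inferInstance, inferInstance, ⟨RingHom.id F⟩, ?_, ?_⟩⟩
    · rw [one_mul, hF]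
    · rw [one_mul]; exact h
  | prime p hp =>
    intro _ d m hm
    exact ⟨bd d m p, fun F _ _ hF r h => step GRP UNI RAD IDL FLD POW hp hm F hF r h⟩
  | mul a b iha ihb =>
    intro hab d m hm
    have ha : 0 < a := Nat.pos_of_ne_zero (by rintro rfl; simp at hab)
    have hb : 0 < b := Nat.pos_of_ne_zero (by rintro rfl; simp at hab)
    obtain ⟨C₁, h₁⟩ := ihb hb d m hm
    obtain ⟨C₂, h₂⟩ := iha ha (b * d) (b * m) (Nat.mul_pos hb hm)
    refine ⟨C₂ + C₁, fun F _ _ hF r h => ?_⟩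
    rw [← add_assoc] at h
    obtain ⟨K, _, _, ⟨j⟩, hK, hE⟩ := h₁ F hF (r + C₂) h
    obtain ⟨K', _, _, ⟨j'⟩, hK', hE'⟩ := h₂ K hK r hE
    exact ⟨K', inferInstance, inferInstance, ⟨j'.comp j⟩, by rw [hK', mul_assoc], by
      rw [mul_assoc]; exact hE'⟩

lemma sd_mul (GRP : S_GRP) (UNI : S_UNI) (RAD : S_RAD) (IDL : S_IDL) (FLD : S_FLD) (POW : S_POW)
    {d m n : ℕ} (hm : 0 < m) (hn : 0 < n) (h : Sd d m) : Sd (n * d) (n * m) := by
  intro r
  obtain ⟨C, hC⟩ := mult GRP UNI RAD IDL FLD POW n hn d m hm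
  obtain ⟨F, _, _, hF, hE⟩ := h (r + C)
  obtain ⟨K, _, _, _, hK, hE'⟩ := hC F hF r hE
  exact ⟨K, inferInstance, inferInstance, hK, hE'⟩

lemma sd_dvd (GRP : S_GRP) {d m m' : ℕ} (hm : 0 < m) (hd : m' ∣ m) (h : Sd d m) : Sd d m' := by
  intro r
  obtain ⟨K, _, _, hK, hE⟩ := h (r + 1)
  exact ⟨K, inferInstance, inferInstance, hK, emb_dvd GRP hm hd hE⟩

end Pool.Agent.Run7.h892.CG
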