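import Pool.Agent.Run7.h892.CG.Stm

/-!
# MP_176ace_nt, second stage: a loss of rank which does not depend on `m` (helper892)

Aim: every number field `F` of degree `d` is contained in a number field `K` of degree `d n` with
`rank_{m n} Cl(K) ≥ rank_m Cl(F) - 3 d (n - 1)`, for all `m`, `n`. For this the kernel is estimated on the elements
of order `p`, for each prime `p ∣ M = ℓ m` separately.
-/

set_option autoImplicit false

namespace Pool.Agent.Run7.h892.CG

/-- **COO** (Mathlib only, 60 lines). Proof. Claim: there is a finset `J ⊆ Fin R` with `p ^ |J| ≤ |N|` such that `y ∈ N`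
and `y = 0` on `J` imply `y = 0`. Induction on `|N|` (strong): if `N = 0` take `J = ∅`. Otherwise choose `x ∈ N` and a
coordinate `j` with `x j ≠ 0`, and let `N' = {y ∈ N | y j = 0}`; the map `N → ZMod p`, `y ↦ y j`, is surjective (multiples
of `x`) with kernel `N'`, so `|N| = p |N'|` (or only: the map `N' × ZMod p → N`, `(y, k) ↦ y + k x` is injective); take
`J = J' ∪ {j}` (`j ∉ J'` is not needed: `|J| ≤ |J'| + 1`; state the claim as `p ^ k ≤ |N|`, `|J| ≤ k`). Hence `|J| ≤ g`
(`Nat.pow_le_pow_iff_right`), the complement of `J` has at least `R - g` elements, `e` enumerates `R - g` of them. -/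
def S_COO : Prop := ∀ p R g : ℕ, p.Prime → ∀ N : AddSubgroup (Fin R → ZMod p), Nat.card N ≤ p ^ g →
  ∃ e : Fin (R - g) → Fin R, Function.Injective e ∧
    ∀ y ∈ N, (∀ i, i ∉ Set.range e → y i = 0) → y = 0

/-- **LOC** (Mathlib only, 40 lines). Proof. Suppose `∏ c_i ^ z_i = 1` and not all `z_i` are divisible by `p ^ k`. Let `a < k` be
the largest number such that `p ^ a` divides all `z_i`, `z_i = p ^ a y_i`; raise to the power `p ^ (k - 1 - a)`:
`∏ c_i ^ (p ^ (k-1) y_i) = 1`, so `p ∣ y_i` for all `i`, a contradiction. (Or by induction on `k`-type argument: show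
`p ^ j ∣ z_i` for all `j ≤ k` by induction on `j`.) -/
def S_LOC : Prop := ∀ (C : Type) [CommGroup C] (p k R : ℕ), p.Prime → 0 < k → ∀ c : Fin R → C,
  (∀ i, c i ^ (p ^ k) = 1) →
  (∀ y : Fin R → ℤ, ∏ i, c i ^ ((p : ℤ) ^ (k - 1) * y i) = 1 → ∀ i, (p : ℤ) ∣ y i) →
  Ind (p ^ k) c

/-- **CRT** (Mathlib only, 70 lines). Independent families for the prime powers `p ^ k ∥ M` give an independent family for `M`.
Proof. Let `c_p` be a family for `p ∈ M.primeFactors` and `c i = ∏_p c_p i`. Clearly `c i ^ M = 1`. Let `∏_i c_i ^ z_i = 1`;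
raise to the power `M / p ^ k`, where `k = M.factorization p`: as `c_q i ^ (M / p ^ k) = 1` for `q ≠ p`
(`q ^ (M.factorization q) ∣ M / p ^ k`), `∏ c_p i ^ ((M / p ^ k) z_i) = 1`, so `p ^ k ∣ (M / p ^ k) z_i`, and `M / p ^ k` is
prime to `p`: `p ^ k ∣ z_i`. This holds for all `p`, so `M ∣ z_i`. -/
def S_CRT : Prop := ∀ (C : Type) [CommGroup C] (M r : ℕ), 0 < M →
  (∀ p : ℕ, p.Prime → p ∣ M → ∃ c : Fin r → C, Ind (p ^ M.factorization p) c) →
  ∃ c : Fin r → C, Ind M c

/-- **IMB** (Mathlib only, 30 lines). Proof. `f v = ∏ c_i ^ (v i).val`, a homomorphism as `c_i ^ M = 1`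
(see `Pool/Agent/Run7/h333/CG/GRP.lean` for the same map), injective by `Ind` (`(v i).val < M`). -/
def S_IMB : Prop := ∀ (C : Type) [CommGroup C] (M r : ℕ), 0 < M → ∀ c : Fin r → C, Ind M c →
  ∃ f : Multiplicative (Fin r → ZMod M) →* C, Function.Injective f

/-- **GRQ** (from COO, LOC, CRT; 70 lines). Proof. By CRT let `p ∣ M`, `p ^ k ∥ M`. Let `N` be the subgroup of the
`y : Fin R → ZMod p` with `∏ c_i ^ (M / p * (y i).val) = 1` (a subgroup as `c_i ^ M = 1`: the exponents count modulo `p`).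
By COO there is `e`, and the family `c' j = c (e j) ^ (M / p ^ k)`, `j < R - g`, is independent by LOC: `c' j ^ (p ^ k) = 1`, and
`∏ c' j ^ (p ^ (k-1) y_j) = 1` means that `y` (extended by `0`, modulo `p`) is in `N`, so `y = 0` modulo `p`. -/
def S_GRQ : Prop := ∀ (C : Type) [CommGroup C] (M R g : ℕ), 0 < M → ∀ c : Fin R → C,
  (∀ i, c i ^ M = 1) →
  (∀ p : ℕ, p.Prime → p ∣ M →
    Nat.card {y : Fin R → ZMod p // ∏ i, c i ^ (M / p * (y i).val) = 1} ≤ p ^ g) →
  ∃ c' : Fin (R - g) → C, Ind M c'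

end Pool.Agent.Run7.h892.CG
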