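import Pool.Agent.Run7.h892.CG.Mul
import Pool.Agent.Run7.h892.CG.Cnq
import Pool.Agent.Run7.h892.CG.Stm2

/-!
# CG: multiplication of the degree with a loss of rank independent of `m` (helper892)
-/

set_option autoImplicit false

namespace Pool.Agent.Run7.h892.CG

open NumberField nonZeroDivisors IsDedekindDomain

/-- extension by zero -/
def exz (m r' r : ℕ) : (Fin r' → ZMod m) →+ (Fin r → ZMod m) where
  toFun v i := if h : (i : ℕ) < r' then v ⟨i, h⟩ else 0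
  map_zero' := by
    funext i
    by_cases h : (i : ℕ) < r' <;> simp [h]
  map_add' v w := by
    funext i
    by_cases h : (i : ℕ) < r' <;> simp [h]

lemma exz_inj {m r' r : ℕ} (h : r' ≤ r) : Function.Injective (exz m r' r) := by
  intro v w hvw
  funext i
  have h1 := congrFun hvw ⟨i, i.2.trans_le h⟩
  simp only [exz, AddMonoidHom.coe_mk, ZeroHom.coe_mk] at h1
  rw [dif_pos i.2, dif_pos i.2] at h1
  exact h1

lemma emb_mono {C : Type} [CommGroup C] {m r r' : ℕ} (h : r' ≤ r) (hE : Emb m r C) : Emb m r' C := by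
  obtain ⟨f, hf⟩ := hE
  exact ⟨f.comp (AddMonoidHom.toMultiplicative (exz m r' r)), hf.comp (exz_inj h)⟩

lemma emb_zero {C : Type} [CommGroup C] {m : ℕ} : Emb m 0 C := by
  refine ⟨1, ?_⟩
  intro v w _
  exact Subsingleton.elim (α := Fin 0 → ZMod m) v w

theorem step' (GRQ : S_GRQ) (IMB : S_IMB) (UNI : S_UNI) (RAD : S_RAD) (IDL : S_IDL) (FLD : S_FLD)
    (POW : S_POW) {d m ℓ : ℕ} (hℓ : ℓ.Prime) (hm : 0 < m) (F : Type) [Field F] [NumberField F]
    (hF : Module.finrank ℚ F = d) (r : ℕ) (hr : 0 < r) (h : Emb m r (ClassGroup (𝓞 F))) :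
    ∃ (K : Type) (_ : Field K) (_ : NumberField K), Nonempty (F →+* K) ∧
      Module.finrank ℚ K = ℓ * d ∧ Emb (ℓ * m) (r - (ℓ * d + 1)) (ClassGroup (𝓞 K)) := by
  classical
  obtain ⟨c, hc⟩ := ind_of_emb h
  obtain ⟨I, P, J, δ, hI, hδ0, hδ, hcop⟩ := IDL F _ c
  set i₀ : Fin r := ⟨0, hr⟩
  have hδF : ∀ x : F, x ^ ℓ ≠ (δ : F) := by
    intro x hx
    have hint : IsIntegral ℤ x := by
      have h1 : IsIntegral ℤ (x ^ ℓ) := by rw [hx]; exact RingOfIntegers.isIntegral_coe δ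
      exact IsIntegral.of_pow hℓ.pos h1
    set y : 𝓞 F := ⟨x, hint⟩ with hy
    have hyδ : y ^ ℓ = δ := by
      apply RingOfIntegers.coe_injective
      rw [map_pow]
      exact hx
    rw [← hyδ] at hδ
    obtain ⟨Q, hQ⟩ := pow_all POW hℓ.pos hδ hI.cop hcop i₀
    have hP : Prime (P i₀) := Ideal.prime_of_isPrime (hI.ne' i₀) (hI.prime i₀)
    have h1 : P i₀ ∣ Q := hP.dvd_of_dvd_pow (by rw [hQ]; exact hI.dvd i₀)
    apply hI.sq i₀
    rw [← hQ]
    exact (pow_dvd_pow (P i₀) hℓ.two_le).trans (pow_dvd_pow_of_dvd h1 ℓ)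
  obtain ⟨K, _, _, _, hK1, hK2, θ, hθ⟩ := FLD F ℓ hℓ δ hδF
  refine ⟨K, inferInstance, inferInstance, ⟨algebraMap F K⟩, by rw [hK2, hF], ?_⟩
  set φ : 𝓞 F →+* 𝓞 K := algebraMap (𝓞 F) (𝓞 K)
  have hφ : Function.Injective φ := FaithfulSMul.algebraMap_injective (𝓞 F) (𝓞 K)
  have hθI : Ideal.span {θ ^ ℓ} = (∏ i, (I i).map φ) * J.map φ := by
    rw [hθ, ← Set.image_singleton, ← Ideal.map_span, hδ]
    change Ideal.mapHom φ _ = (∏ i, Ideal.mapHom φ (I i)) * Ideal.mapHom φ J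
    rw [map_mul, map_prod]
  have hQ : ∀ i, ∃ Q : Ideal (𝓞 K), Q ^ ℓ = (I i).map φ := by
    refine pow_all POW hℓ.pos hθI (fun i j hij => ?_) ?_
    · exact (hI.cop i j hij).map (Ideal.mapHom φ)
    · have h1 := hcop.map (Ideal.mapHom φ)
      rw [map_prod] at h1
      exact h1
  choose Q hQ using hQ
  have hQ0 : ∀ i, Q i ≠ ⊥ := by
    intro i h0
    have h1 : (I i).map φ = ⊥ := by
      rw [← hQ i, h0]
      exact zero_pow hℓ.pos.ne'
    rw [Ideal.map_eq_bot_iff_of_injective hφ] at h1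
    exact hI.ne i h1
  have hlm : 0 < ℓ * m := Nat.mul_pos hℓ.pos hm
  have h1 := (t_CNT UNI RAD F K ℓ m _ hℓ hm hK1 c I P hI hc Q hQ0 hQ).1
  have h2 := t_CNQ UNI RAD F K ℓ m _ hℓ hm hK1 c I P hI hc Q hQ0 hQ
  have hdeg : Module.finrank ℚ K = ℓ * d := by rw [hK2, hF]
  rw [hdeg] at h2
  obtain ⟨c', hc'⟩ := GRQ (ClassGroup (𝓞 K)) (ℓ * m) r (ℓ * d + 1) hlm _ h1 h2
  exact IMB _ _ _ hlm c' hc'

theorem mult' (GRQ : S_GRQ) (IMB : S_IMB) (UNI : S_UNI) (RAD : S_RAD) (IDL : S_IDL) (FLD : S_FLD)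
    (POW : S_POW) (n : ℕ) : 0 < n → ∀ (m : ℕ), 0 < m → ∀ (F : Type) [Field F] [NumberField F],
      ∀ r : ℕ, Emb m r (ClassGroup (𝓞 F)) →
      ∃ (K : Type) (_ : Field K) (_ : NumberField K), Nonempty (F →+* K) ∧
        Module.finrank ℚ K = n * Module.finrank ℚ F ∧
        Emb (n * m) (r - 3 * Module.finrank ℚ F * (n - 1)) (ClassGroup (𝓞 K)) := by
  induction n using Nat.recOnMul with
  | zero => intro h; exact absurd h (lt_irrefl 0)
  | one =>
    intro _ m _ F _ _ r h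
    refine ⟨F, inferInstance, inferInstance, ⟨RingHom.id F⟩, ?_, ?_⟩
    · rw [one_mul]
    · rw [one_mul, Nat.sub_self, mul_zero, Nat.sub_zero]; exact h
  | prime p hp =>
    intro _ m hm F _ _ r h
    have hd : 0 < Module.finrank ℚ F := Module.finrank_pos
    rcases Nat.eq_zero_or_pos r with hr | hr
    · subst hr
      have h1 : Emb 1 1 (ClassGroup (𝓞 F)) := by
        refine ⟨1, ?_⟩
        intro v w _
        exact Subsingleton.elim (α := Fin 1 → ZMod 1) v w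
      obtain ⟨K, _, _, hj, hK, _⟩ := step' GRQ IMB UNI RAD IDL FLD POW hp one_pos F rfl 1 one_pos h1
      refine ⟨K, inferInstance, inferInstance, hj, hK, ?_⟩
      rw [Nat.zero_sub]
      exact emb_zero
    · obtain ⟨K, _, _, hj, hK, hE⟩ := step' GRQ IMB UNI RAD IDL FLD POW hp hm F rfl r hr h
      refine ⟨K, inferInstance, inferInstance, hj, hK, emb_mono (Nat.sub_le_sub_left ?_ r) hE⟩
      obtain ⟨q, rfl⟩ : ∃ q, p = q + 2 := ⟨p - 2, by have := hp.two_le; omega⟩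
      have : q + 2 - 1 = q + 1 := rfl
      rw [this]
      nlinarith [Nat.zero_le (q * Module.finrank ℚ F)]
  | mul a b iha ihb =>
    intro hab m hm F _ _ r h
    have ha : 0 < a := Nat.pos_of_ne_zero (by rintro rfl; simp at hab)
    have hb : 0 < b := Nat.pos_of_ne_zero (by rintro rfl; simp at hab)
    obtain ⟨K, _, _, ⟨j⟩, hK, hE⟩ := ihb hb m hm F r h
    obtain ⟨K', _, _, ⟨j'⟩, hK', hE'⟩ := iha ha (b * m) (Nat.mul_pos hb hm) K _ hE
    refine ⟨K', inferInstance, inferInstance, ⟨j'.comp j⟩, by rw [hK', hK, mul_assoc], ?_⟩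
    rw [mul_assoc]
    have h1 : r - 3 * Module.finrank ℚ F * (a * b - 1) =
        r - 3 * Module.finrank ℚ F * (b - 1) - 3 * Module.finrank ℚ K * (a - 1) := by
      rw [Nat.sub_sub, hK]
      congr 1
      obtain ⟨a', rfl⟩ : ∃ a', a = a' + 1 := ⟨a - 1, by omega⟩
      obtain ⟨b', rfl⟩ : ∃ b', b = b' + 1 := ⟨b - 1, by omega⟩
      have h2 : (a' + 1) * (b' + 1) - 1 = a' * b' + a' + b' := by
        have : (a' + 1) * (b' + 1) = a' * b' + a' + b' + 1 := by ring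
        omega
      rw [h2, Nat.add_sub_cancel, Nat.add_sub_cancel]
      ring
    rw [h1]
    exact hE'

end Pool.Agent.Run7.h892.CG
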