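import Pool.Agent.Run7.h892.CG.Mul2

/-!
# CG: classes of order `m` become `n`-th powers of classes of order `m n` (helper892)
-/

set_option autoImplicit false

namespace Pool.Agent.Run7.h892.CG

open NumberField nonZeroDivisors IsDedekindDomain

/-- `(ℤ/M)^s` embeds into the class group of `K`, in such a way that the `n`-th powers are extensions of
classes in the image of `f` -/
def Lift {A : Type} [Group A] (F K : Type) [Field F] [NumberField F] [Field K] [NumberField K]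
    [Algebra F K] (f : A →* ClassGroup (𝓞 F)) (n M s : ℕ) : Prop :=
  ∃ g : Multiplicative (Fin s → ZMod M) →* ClassGroup (𝓞 K), Function.Injective g ∧
    ∀ v, ∃ w, g v ^ n = ClassGroup.extendedHom (𝓞 F) (𝓞 K) (f w)

lemma lift_mono {A : Type} [Group A] {F K : Type} [Field F] [NumberField F] [Field K] [NumberField K]
    [Algebra F K] {f : A →* ClassGroup (𝓞 F)} {n M s s' : ℕ} (h : s' ≤ s) (hL : Lift F K f n M s) :
    Lift F K f n M s' := by
  obtain ⟨g, hg, hg'⟩ := hL
  exact ⟨g.comp (AddMonoidHom.toMultiplicative (exz M s' s)), hg.comp (exz_inj h), fun v => hg' _⟩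

lemma lift_zero {A : Type} [Group A] {F K : Type} [Field F] [NumberField F] [Field K] [NumberField K]
    [Algebra F K] {f : A →* ClassGroup (𝓞 F)} {n M : ℕ} : Lift F K f n M 0 := by
  refine ⟨1, ?_, ?_⟩
  · intro v w _
    exact Subsingleton.elim (α := Fin 0 → ZMod M) v w
  · intro v
    exact ⟨1, by simp⟩

/-- the standard basis -/
def sb (m R : ℕ) (i : Fin R) : Multiplicative (Fin R → ZMod m) :=
  Multiplicative.ofAdd (Pi.single i 1)

lemma ind_sb {C : Type} [CommGroup C] {m R : ℕ} (f : Multiplicative (Fin R → ZMod m) →* C)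
    (hf : Function.Injective f) : Ind m (fun i => f (sb m R i)) := by
  refine ⟨?_, ?_⟩
  · intro i
    unfold sb
    rw [← map_pow, ← ofAdd_nsmul, ← Pi.single_smul]
    have : (m • (1 : ZMod m)) = 0 := by simp
    rw [this, Pi.single_zero, ofAdd_zero, map_one]
  · intro z hz i
    have h1 : f (Multiplicative.ofAdd (fun i => ((z i : ℤ) : ZMod m))) = 1 := by
      rw [← hz]
      have h2 : (fun i => ((z i : ℤ) : ZMod m)) = ∑ i, z i • (Pi.single i 1 : Fin R → ZMod m) := by
        funext j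
        rw [Finset.sum_apply]
        simp [Pi.single_apply]
      rw [h2, ofAdd_sum, map_prod]
      refine Finset.prod_congr rfl (fun i _ => ?_)
      rw [ofAdd_zsmul, map_zpow]
      rfl
    have h2 : Multiplicative.ofAdd (fun i => ((z i : ℤ) : ZMod m)) = 1 := hf (by rw [h1, map_one])
    have h3 : (fun i => ((z i : ℤ) : ZMod m)) = 0 := by
      have := congrArg Multiplicative.toAdd h2
      simpa using this
    have h4 := congrFun h3 i
    exact (ZMod.intCast_zmod_eq_zero_iff_dvd _ _).mp h4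

theorem step3 (GRQ : S_GRQ) (IMB : S_IMB) (UNI : S_UNI) (RAD : S_RAD) (IDL : S_IDL) (FLD : S_FLD)
    (POW : S_POW) {d m ℓ : ℕ} (hℓ : ℓ.Prime) (hm : 0 < m) (F : Type) [Field F] [NumberField F]
    (hF : Module.finrank ℚ F = d) (r : ℕ) (hr : 0 < r)
    (f : Multiplicative (Fin r → ZMod m) →* ClassGroup (𝓞 F)) (hf : Function.Injective f) :
    ∃ (K : Type) (_ : Field K) (_ : NumberField K) (_ : Algebra F K),
      Module.finrank F K = ℓ ∧ Lift F K f ℓ (ℓ * m) (r - (ℓ * d + 1)) := by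
  classical
  have hc := ind_sb f hf
  set c : Fin r → ClassGroup (𝓞 F) := fun i => f (sb m r i) with hcdef
  obtain ⟨I, P, J, δ, hI, hδ0, hδ, hcop⟩ := IDL F _ c
  set i₀ : Fin r := ⟨0, hr⟩
  have hδF : ∀ x : F, x ^ ℓ ≠ (δ : F) := by
    intro x hx
    have hint : IsIntegral ℤ x := by
      have h1 : IsIntegral ℤ (x ^ ℓ) := by rw [hx]; exact RingOfIntegers.isIntegral_coe δ
      exact IsIntegral.of_pow hℓ.pos h1
    set y : 𝓞 F := ⟨x, hint⟩ with hy
    have hyδ : y ^ ℓ = δ := by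
      apply RingOfIntegers.coe_injective
      rw [map_pow]
      exact hx
    rw [← hyδ] at hδ
    obtain ⟨Q, hQ⟩ := pow_all POW hℓ.pos hδ hI.cop hcop i₀
    have hP : Prime (P i₀) := Ideal.prime_of_isPrime (hI.ne' i₀) (hI.prime i₀)
    have h1 : P i₀ ∣ Q := hP.dvd_of_dvd_pow (by rw [hQ]; exact hI.dvd i₀)
    apply hI.sq i₀
    rw [← hQ]
    exact (pow_dvd_pow (P i₀) hℓ.two_le).trans (pow_dvd_pow_of_dvd h1 ℓ)
  obtain ⟨K, _, _, _, hK1, hK2, θ, hθ⟩ := FLD F ℓ hℓ δ hδF
  refine ⟨K, inferInstance, inferInstance, inferInstance, hK1, ?_⟩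
  set φ : 𝓞 F →+* 𝓞 K := algebraMap (𝓞 F) (𝓞 K)
  have hφ : Function.Injective φ := FaithfulSMul.algebraMap_injective (𝓞 F) (𝓞 K)
  have hθI : Ideal.span {θ ^ ℓ} = (∏ i, (I i).map φ) * J.map φ := by
    rw [hθ, ← Set.image_singleton, ← Ideal.map_span, hδ]
    change Ideal.mapHom φ _ = (∏ i, Ideal.mapHom φ (I i)) * Ideal.mapHom φ J
    rw [map_mul, map_prod]
  have hQ : ∀ i, ∃ Q : Ideal (𝓞 K), Q ^ ℓ = (I i).map φ := by
    refine pow_all POW hℓ.pos hθI (fun i j hij => ?_) ?_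
    · exact (hI.cop i j hij).map (Ideal.mapHom φ)
    · have h1 := hcop.map (Ideal.mapHom φ)
      rw [map_prod] at h1
      exact h1
  choose Q hQ using hQ
  have hQ0 : ∀ i, Q i ≠ ⊥ := by
    intro i h0
    have h1 : (I i).map φ = ⊥ := by
      rw [← hQ i, h0]
      exact zero_pow hℓ.pos.ne'
    rw [Ideal.map_eq_bot_iff_of_injective hφ] at h1
    exact hI.ne i h1
  have hlm : 0 < ℓ * m := Nat.mul_pos hℓ.pos hm
  have h1 := (t_CNT UNI RAD F K ℓ m _ hℓ hm hK1 c I P hI hc Q hQ0 hQ).1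
  have h2 := t_CNQ UNI RAD F K ℓ m _ hℓ hm hK1 c I P hI hc Q hQ0 hQ
  have hdeg : Module.finrank ℚ K = ℓ * d := by rw [hK2, hF]
  rw [hdeg] at h2
  -- the group of the classes whose `ℓ`-th power comes from the image of `f`
  set T : Subgroup (ClassGroup (𝓞 K)) :=
    (((ClassGroup.extendedHom (𝓞 F) (𝓞 K)).comp f).range).comap (powMonoidHom ℓ) with hT
  have hqT : ∀ i, ClassGroup.mk0 ⟨Q i, mem_nonZeroDivisors_of_ne_zero (hQ0 i)⟩ ∈ T := by
    intro i
    rw [hT, Subgroup.mem_comap]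
    refine ⟨sb m r i, ?_⟩
    change ClassGroup.extendedHom (𝓞 F) (𝓞 K) (c i) =
      ClassGroup.mk0 ⟨Q i, mem_nonZeroDivisors_of_ne_zero (hQ0 i)⟩ ^ ℓ
    rw [← hI.cls i, ClassGroup.extendedHom_mk0, ← map_pow]
    congr 1
    apply Subtype.ext
    rw [SubmonoidClass.coe_pow]
    exact (hQ i).symm
  set q : Fin r → T := fun i => ⟨_, hqT i⟩ with hq
  have e1 : ∀ i, q i ^ (ℓ * m) = 1 := by
    intro i
    apply Subtype.ext
    rw [SubmonoidClass.coe_pow]
    exact h1 i
  have e2 : ∀ p : ℕ, p.Prime → p ∣ ℓ * m →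
      Nat.card {y : Fin r → ZMod p // ∏ i, q i ^ (ℓ * m / p * (y i).val) = 1} ≤ p ^ (ℓ * d + 1) := by
    intro p hp hpd
    refine le_trans (le_of_eq (Nat.card_congr (Equiv.subtypeEquivRight fun y => ?_))) (h2 p hp hpd)
    have e0 : ((∏ i, q i ^ (ℓ * m / p * (y i).val) : T) : ClassGroup (𝓞 K)) =
        ∏ i, ClassGroup.mk0 ⟨Q i, mem_nonZeroDivisors_of_ne_zero (hQ0 i)⟩ ^ (ℓ * m / p * (y i).val) := by
      simp [hq]
    rw [Subtype.ext_iff, e0]
    rfl
  obtain ⟨c', hc'⟩ := GRQ T (ℓ * m) r (ℓ * d + 1) hlm q e1 e2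
  obtain ⟨g, hg⟩ := IMB T _ _ hlm c' hc'
  refine ⟨T.subtype.comp g, (Subtype.val_injective).comp hg, fun v => ?_⟩
  obtain ⟨w, hw⟩ := (g v).2
  exact ⟨w, hw.symm⟩

lemma ext_self (F : Type) [Field F] [NumberField F] (x : ClassGroup (𝓞 F)) :
    ClassGroup.extendedHom (𝓞 F) (𝓞 F) x = x := by
  obtain ⟨I, rfl⟩ := ClassGroup.mk0_surjective x
  rw [ClassGroup.extendedHom_mk0]
  congr 1
  apply Subtype.ext
  exact Ideal.map_id _

/-- **Classes of order `m` become `n`-th powers of classes of order `m n`** -/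
theorem mult3 (GRQ : S_GRQ) (IMB : S_IMB) (UNI : S_UNI) (RAD : S_RAD) (IDL : S_IDL) (FLD : S_FLD)
    (POW : S_POW) (n : ℕ) : 0 < n → ∀ (m : ℕ), 0 < m → ∀ (F : Type) [Field F] [NumberField F],
      ∀ (r : ℕ) (f : Multiplicative (Fin r → ZMod m) →* ClassGroup (𝓞 F)), Function.Injective f →
      ∃ (K : Type) (_ : Field K) (_ : NumberField K) (_ : Algebra F K),
        Module.finrank F K = n ∧
        Lift F K f n (n * m) (r - 3 * Module.finrank ℚ F * (n - 1)) := by
  induction n using Nat.recOnMul with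
  | zero => intro h; exact absurd h (lt_irrefl 0)
  | one =>
    intro _ m _ F _ _ r f hf
    refine ⟨F, inferInstance, inferInstance, Algebra.id F, Module.finrank_self F, ?_⟩
    rw [one_mul, Nat.sub_self, mul_zero, Nat.sub_zero]
    refine ⟨f, hf, fun v => ⟨v, ?_⟩⟩
    rw [pow_one]
    exact (ext_self F (f v)).symm
  | prime p hp =>
    intro _ m hm F _ _ r f hf
    have hd : 0 < Module.finrank ℚ F := Module.finrank_pos
    rcases Nat.eq_zero_or_pos r with hr | hr
    · subst hr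
      have h1 : Function.Injective (1 : Multiplicative (Fin 1 → ZMod 1) →* ClassGroup (𝓞 F)) := by
        intro v w _
        exact Subsingleton.elim (α := Fin 1 → ZMod 1) v w
      obtain ⟨K, _, _, _, hK, _⟩ := step3 GRQ IMB UNI RAD IDL FLD POW hp one_pos F rfl 1 one_pos 1 h1
      refine ⟨K, inferInstance, inferInstance, inferInstance, hK, ?_⟩
      rw [Nat.zero_sub]
      exact lift_zero
    · obtain ⟨K, _, _, _, hK, hE⟩ := step3 GRQ IMB UNI RAD IDL FLD POW hp hm F rfl r hr f hf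
      refine ⟨K, inferInstance, inferInstance, inferInstance, hK,
        lift_mono (Nat.sub_le_sub_left ?_ r) hE⟩
      obtain ⟨q, rfl⟩ : ∃ q, p = q + 2 := ⟨p - 2, by have := hp.two_le; omega⟩
      have : q + 2 - 1 = q + 1 := rfl
      rw [this]
      nlinarith [Nat.zero_le (q * Module.finrank ℚ F)]
  | mul a b iha ihb =>
    intro hab m hm F _ _ r f hf
    have ha : 0 < a := Nat.pos_of_ne_zero (by rintro rfl; simp at hab)
    have hb : 0 < b := Nat.pos_of_ne_zero (by rintro rfl; simp at hab)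
    obtain ⟨K, _, _, _, hK, g, hg, hg'⟩ := ihb hb m hm F r f hf
    obtain ⟨K', _, _, _, hK', g', hg1, hg1'⟩ := iha ha (b * m) (Nat.mul_pos hb hm) K _ g hg
    let alg : Algebra F K' := ((algebraMap K K').comp (algebraMap F K)).toAlgebra
    have tow : IsScalarTower F K K' := IsScalarTower.of_algebraMap_eq (fun x => rfl)
    refine ⟨K', inferInstance, inferInstance, alg, ?_, ?_⟩
    · rw [← Module.finrank_mul_finrank F K K', hK, hK', mul_comm]
    have hdeg : Module.finrank ℚ K = b * Module.finrank ℚ F := by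
      rw [← Module.finrank_mul_finrank ℚ F K, hK, mul_comm]
    rw [mul_assoc]
    have h1 : r - 3 * Module.finrank ℚ F * (a * b - 1) =
        r - 3 * Module.finrank ℚ F * (b - 1) - 3 * Module.finrank ℚ K * (a - 1) := by
      rw [Nat.sub_sub, hdeg]
      congr 1
      obtain ⟨a', rfl⟩ : ∃ a', a = a' + 1 := ⟨a - 1, by omega⟩
      obtain ⟨b', rfl⟩ : ∃ b', b = b' + 1 := ⟨b - 1, by omega⟩
      have h2 : (a' + 1) * (b' + 1) - 1 = a' * b' + a' + b' := by
        have : (a' + 1) * (b' + 1) = a' * b' + a' + b' + 1 := by ring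
        omega
      rw [h2, Nat.add_sub_cancel, Nat.add_sub_cancel]
      ring
    rw [h1]
    refine ⟨g', hg1, fun v => ?_⟩
    obtain ⟨w, hw⟩ := hg1' v
    obtain ⟨w', hw'⟩ := hg' w
    refine ⟨w', ?_⟩
    rw [pow_mul, hw, ← map_pow, hw']
    exact ClassGroup.extendedHom_comp_apply (𝓞 F) (𝓞 K) (𝓞 K') (f w')

end Pool.Agent.Run7.h892.CG
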