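import Mathlib

/-!
# MP_176ace_nt: class groups in fixed degree, multiplication of the degree (helper892)

`Sd d m`: the `m`-rank of the class groups of the number fields of degree `d` is unbounded.
Theorems: `Sd d m → Sd (d n) (m n)` for all `n ≥ 1`, and `Sd d m` for all even `d` and all `m ∣ 2 d`.

Proof of the first theorem, for `n = ℓ` prime. Let `F` have degree `d` and let the classes `c_i`, `i < R`, be a
basis of a subgroup `(ℤ/m)^R` of `Cl(F)`. There are pairwise coprime integral ideals `I_i` in the classes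
`c_i` and `δ ∈ 𝓞 F` with `(δ) = (∏ I_i) J`, `J` coprime to the `I_i`, and primes `P_i` which divide `I_i` once
(S_IDL). Let `K = F(θ)`, `θ ^ ℓ = δ`, of degree `ℓ` over `F`. Then `I_i 𝓞 K = Q_i ^ ℓ` (S_POW), and the classes
of the `Q_i` generate `(ℤ/(ℓ m))^R` up to a kernel of at most `(ℓ m) ^ (ℓ d + 1)` elements (S_CNT), a bound
independent of `R`; by S_GRP the class group contains `(ℤ/(ℓ m))^r` if `R` is large.

The case `Sd 2 4`: `F = ℚ(√D)`, `D = p_1 ⋯ p_t`, primes `≡ 1` modulo `8` which are squares modulo each other;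
by Legendre's theorem there are `α_i` with `(α_i) = P_i B_i ^ 2`, `P_i ^ 2 = (p_i)`.
-/

set_option autoImplicit false

namespace Pool.Agent.Run7.h892.CG

open NumberField nonZeroDivisors

/-- the `m`-rank of the class groups of the number fields of degree `d` is unbounded -/
def Sd (d m : ℕ) : Prop :=
  ∀ r : ℕ, ∃ (K : Type) (_ : Field K) (_ : NumberField K), Module.finrank ℚ K = d ∧
    ∃ f : Multiplicative (Fin r → ZMod m) →* ClassGroup (𝓞 K), Function.Injective f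

/-- **GRP** (Mathlib only, 50 lines). Proof. Let `A` be the set of the `x` with `∏ c_i ^ x_i = 1`, finite with at
most `B` elements, `0 ∈ A`. For every `x ∈ A`, `x ≠ 0`, choose a coordinate `j(x)` with `x_{j(x)} ≠ 0`; the set `J` of
these coordinates has at most `B` elements, so there is an injection `e : Fin r → Fin R` with values
outside of `J`. Let `f v = ∏_i c_{e i} ^ (v i).val`: a homomorphism since `c ^ m = 1` (`ZMod.val_add`,
`pow_mod`-type lemma). If `f v = 1` then `x` (`x_{e i} = v_i`, other coordinates `0`) is in `A`, and it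
vanishes at all coordinates of `J`, so `x = 0`. -/
def S_GRP : Prop := ∀ (C : Type) [CommGroup C] (m R r B : ℕ), 0 < m → r + B ≤ R →
  ∀ c : Fin R → C, (∀ i, c i ^ m = 1) →
  Nat.card {x : Fin R → Fin m // ∏ i, c i ^ (x i : ℕ) = 1} ≤ B →
  ∃ f : Multiplicative (Fin r → ZMod m) →* C, Function.Injective f

/-- **UNI** (Mathlib only, 60 lines). Units modulo `k`-th powers. Proof. `rank K + 1 ≤ [K : ℚ]`
(`NumberField.Units.rank`, `InfinitePlace.card_add_two_mul_card_eq_rank`). By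
`NumberField.Units.exist_unique_eq_mul_prod` every unit is `ζ ∏ ε_i ^ e_i`, `ζ` a power of a generator `ζ₀` of the
cyclic torsion group. Send it to (exponent of `ζ₀` modulo `k`, the `e_i` modulo `k`), a set with
`k ^ (rank + 1)` elements. -/
def S_UNI : Prop := ∀ (K : Type) [Field K] [NumberField K] (k : ℕ), 0 < k →
  ∃ g : (𝓞 K)ˣ → Fin (k ^ Module.finrank ℚ K), ∀ u v, g u = g v → ∃ w : (𝓞 K)ˣ, u = v * w ^ k

/-- **RAD** (Mathlib only, 80 lines). Independence of radicals. Proof. The `ω_i` are linearly independent over `F`: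
let `∑ f_i ω_i = 0`; multiply by `ω_j⁻¹` and take the trace to `F`. For `i ≠ j` the element
`η = ω_i / ω_j` is not in `F` and `η ^ ℓ = a ∈ F`. Here `a` is not an `ℓ`-th power in `F`: if `a = b ^ ℓ` then
`ζ = η / b` is a root of unity, `ζ ^ ℓ = 1`, `ζ ≠ 1`, so `[F(ζ) : F] ≤ ℓ - 1` (root of the cyclotomic polynomial
`1 + X + ⋯ + X ^ (ℓ-1)`), it divides the prime `[K : F] = ℓ`, so it is `1` and `ζ ∈ F`, `η ∈ F`, a contradiction.
So `X ^ ℓ - a` is irreducible (`X_pow_sub_C_irreducible_of_prime`), it is the minimal polynomial of `η`, and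
`Tr η = 0` (coefficient of `X ^ (ℓ-1)`; or: `Tr` is the trace of the multiplication by `η` in the basis
`1, η, …, η ^ (ℓ-1)`; `Algebra.trace_eq...`, `PowerBasis.trace_gen_eq_nextCoeff_minpoly`, or
`trace_eq_finrank_mul_minpoly_nextCoeff`). Hence `f_j ℓ = 0`, `f_j = 0`. -/
def S_RAD : Prop := ∀ (F K : Type) [Field F] [Field K] [CharZero F] [Algebra F K]
  [FiniteDimensional F K] (ℓ : ℕ), ℓ.Prime → Module.finrank F K = ℓ → ∀ (s : ℕ) (ω : Fin s → K),
  (∀ i, ω i ≠ 0) → (∀ i, ∃ a : F, ω i ^ ℓ = algebraMap F K a) →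
  (∀ i j, i ≠ j → ∀ a : F, ω i ≠ algebraMap F K a * ω j) → s ≤ ℓ

/-- pairwise coprime integral ideals in given classes, with primes dividing them exactly once -/
structure Ide (F : Type) [Field F] [NumberField F] (R : ℕ) (c : Fin R → ClassGroup (𝓞 F))
    (I P : Fin R → Ideal (𝓞 F)) : Prop where
  ne : ∀ i, I i ≠ ⊥
  cls : ∀ i, ClassGroup.mk0 ⟨I i, mem_nonZeroDivisors_of_ne_zero (ne i)⟩ = c i
  prime : ∀ i, (P i).IsPrime
  ne' : ∀ i, P i ≠ ⊥
  dvd : ∀ i, P i ∣ I i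
  sq : ∀ i, ¬ P i ^ 2 ∣ I i
  cop : ∀ i j, i ≠ j → IsCoprime (I i) (I j)

/-- **AVO** (Mathlib only, 60 lines). An integral ideal in a given class, prime to a given ideal. Proof. Let `B` be an
integral ideal in the class `c⁻¹` (`ClassGroup.mk0_surjective`). For each of the finitely many primes
`P ∣ N` choose `x_P ∈ B`, `x_P ∉ B P`; by the Chinese remainder theorem (`IsDedekindDomain.exists_forall_sub_mem_ideal`,
with exponents large enough, or `Ideal` versions) there is `x` with `x ≡ x_P` modulo `B P`-like powers for all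
`P ∣ N` and `x ∈ B`; so `(x) = B I` with `I` not divisible by any `P ∣ N` (in Mathlib perhaps: for nonzero
ideals `B`, `N` there is `x ∈ B` with `B = (x) + B N`: `Ideal.exists_..`, `IsDedekindDomain...sup_span`). The class of `I` is `c`. -/
def S_AVO : Prop := ∀ (F : Type) [Field F] [NumberField F] (c : ClassGroup (𝓞 F))
  (N : Ideal (𝓞 F)), N ≠ ⊥ → ∃ (I : Ideal (𝓞 F)) (h : I ≠ ⊥),
  ClassGroup.mk0 ⟨I, mem_nonZeroDivisors_of_ne_zero h⟩ = c ∧ IsCoprime I N

/-- **IDL** (from AVO, 90 lines). Proof. Induction on `R` for the ideals: let `N` be the product of the ideals already chosen;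
take a prime `P` not dividing `N` (infinitely many primes: e.g. a prime factor of `(p)` for a large
rational prime `p`, or `𝓞 F` has infinitely many prime ideals), by AVO an ideal `A` of the class `c_i [P]⁻¹` prime to
`N P`, and `I_i = P A`. In the end AVO gives `J` in the class of `(∏ I_i)⁻¹` prime to `∏ I_i`; then `(∏ I_i) J` is
principal (`ClassGroup.mk0_eq_one_iff`), `= (δ)`. -/
def S_IDL : Prop := ∀ (F : Type) [Field F] [NumberField F] (R : ℕ) (c : Fin R → ClassGroup (𝓞 F)),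
  ∃ (I P : Fin R → Ideal (𝓞 F)) (J : Ideal (𝓞 F)) (δ : 𝓞 F), Ide F R c I P ∧ δ ≠ 0 ∧
    Ideal.span {δ} = (∏ i, I i) * J ∧ IsCoprime (∏ i, I i) J

/-- **FLD** (Mathlib only, 60 lines). Proof. `X ^ ℓ - δ` is irreducible over `F` (`X_pow_sub_C_irreducible_of_prime`);
`K = AdjoinRoot (X ^ ℓ - C δ)`, degree `ℓ` over `F` (`AdjoinRoot.powerBasis`), a number field; the root is
integral over `ℤ`. -/
def S_FLD : Prop := ∀ (F : Type) [Field F] [NumberField F] (ℓ : ℕ), ℓ.Prime → ∀ δ : 𝓞 F,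
  (∀ x : F, x ^ ℓ ≠ (δ : F)) → ∃ (K : Type) (_ : Field K) (_ : NumberField K) (_ : Algebra F K),
    Module.finrank F K = ℓ ∧ Module.finrank ℚ K = ℓ * Module.finrank ℚ F ∧
    ∃ θ : 𝓞 K, θ ^ ℓ = algebraMap (𝓞 F) (𝓞 K) δ

/-- **POW** (Mathlib only, 20 lines). Unique factorization of ideals: `(θ) ^ ℓ = I J` with `I`, `J` coprime
(`exists_eq_pow_of_mul_eq_pow`, ideals have only the unit `1`). -/
def S_POW : Prop := ∀ (K : Type) [Field K] [NumberField K] (ℓ : ℕ) (θ : 𝓞 K)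
  (I J : Ideal (𝓞 K)), 0 < ℓ → Ideal.span {θ ^ ℓ} = I * J → IsCoprime I J →
  ∃ Q : Ideal (𝓞 K), Q ^ ℓ = I

/-- the classes of the `I_i` are independent of order `m` -/
def Ind {A : Type} [CommGroup A] {R : ℕ} (m : ℕ) (c : Fin R → A) : Prop :=
  (∀ i, c i ^ m = 1) ∧ ∀ z : Fin R → ℤ, ∏ i, c i ^ z i = 1 → ∀ i, (m : ℤ) ∣ z i

/-- **CNT** (leader). The kernel is bounded independently of `R`. -/
def S_CNT : Prop := ∀ (F K : Type) [Field F] [NumberField F] [Field K] [NumberField K]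
  [Algebra F K] (ℓ m R : ℕ), ℓ.Prime → 0 < m → Module.finrank F K = ℓ →
  ∀ (c : Fin R → ClassGroup (𝓞 F)) (I P : Fin R → Ideal (𝓞 F)), Ide F R c I P → Ind m c →
  ∀ (Q : Fin R → Ideal (𝓞 K)) (hQ : ∀ i, Q i ≠ ⊥),
  (∀ i, Q i ^ ℓ = (I i).map (algebraMap (𝓞 F) (𝓞 K))) →
  (∀ i, ClassGroup.mk0 ⟨Q i, mem_nonZeroDivisors_of_ne_zero (hQ i)⟩ ^ (ℓ * m) = 1) ∧
  Nat.card {x : Fin R → Fin (ℓ * m) //
    ∏ i, ClassGroup.mk0 ⟨Q i, mem_nonZeroDivisors_of_ne_zero (hQ i)⟩ ^ (x i : ℕ) = 1} ≤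
    (ℓ * m) ^ (Module.finrank ℚ K) * (ℓ * m)

/-! ### Quadratic fields -/

/-- **PRI** (Mathlib only, 50 lines). Proof. Induction on `t`: `p_t ≡ 1` modulo `8 ∏ p_i`, larger than the `p_i`
(`Nat.exists_prime_gt_modEq_one`); it is a square modulo `p_i`, and `p_i` is a square modulo `p_t` by quadratic
reciprocity (`ZMod.exists_sq_eq_prime_iff_of_mod_four_eq_one`). -/
def S_PRI : Prop := ∀ t : ℕ, ∃ p : Fin t → ℕ, Function.Injective p ∧ (∀ i, (p i).Prime) ∧
  (∀ i, p i % 8 = 1) ∧ ∀ i j, i ≠ j → IsSquare ((p i : ℕ) : ZMod (p j))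

/-- **LEG** (from the starting theorem `Pool.Agent.H565R2.NS.Leg.legendre` in `Pool/Agent/H565R2/NS/Leg.lean`, 90 lines).
`p` prime, `m` squarefree, `p, m ≡ 1` modulo `8`, `p ∤ m`, `p` a square modulo all prime factors of `m`, `m` a square
modulo `p`. Then there are integers with `T`, `Z` coprime and `T² - p m Y² = -4 p Z²`. Proof. `-1` is a square modulo `m` and
`p` (all prime factors are `≡ 1` modulo `4`: hypothesis `h4`), so `m ∣ r² + p`, `p ∣ s² - m` (Chinese remainder theorem)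
and the starting theorem gives `Z² + p X² = m Y²` with `Y ≠ 0`; divide by the gcd. Then `X, Y, Z` are pairwise coprime
(`m` squarefree) and `p ∤ Z` (otherwise `p ∣ Y`), so `(p X)² - p m Y² = - p Z²`. If `Z` is even then `X`, `Y` are odd and
`T = p X`, `Z / 2` are as wanted; if `Z` is odd take `T = 2 p X`, `2 Y`, `Z`. (`T` and `p m Y²` have the same parity, and
`p ∣ T`.) -/
def S_LEG : Prop := ∀ p m : ℕ, p.Prime → Squarefree m → p % 8 = 1 → m % 8 = 1 → ¬ p ∣ m →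
  (∀ q : ℕ, q.Prime → q ∣ m → q % 4 = 1 ∧ IsSquare ((p : ℕ) : ZMod q)) →
  IsSquare ((m : ℕ) : ZMod p) →
  ∃ T Y Z : ℤ, T ^ 2 - p * m * Y ^ 2 = -4 * p * Z ^ 2 ∧ IsCoprime T Z ∧ (p : ℤ) ∣ T ∧ Z ≠ 0

/-- **BID** (Mathlib only, 60 lines). Proof. `P ∣ (α)` and `P ∣ (α')`, `(α) = P A`, `(α') = P A'`, and `P² A A' = (p Z²)`, so
`A A' = (Z)²`. `A + A'` contains `α + α' = T` and `Z²`, so it is everything: `A` and `A'` are coprime, and `A = B²`
(`exists_eq_pow_of_mul_eq_pow`). -/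
def S_BID : Prop := ∀ (K : Type) [Field K] [NumberField K] (p T Z : ℤ) (α α' : 𝓞 K)
  (P : Ideal (𝓞 K)), p ≠ 0 → Z ≠ 0 → P ^ 2 = Ideal.span {(p : 𝓞 K)} → α ∈ P → α' ∈ P →
  α + α' = (T : 𝓞 K) → α * α' = -((p : 𝓞 K) * (Z : 𝓞 K) ^ 2) → IsCoprime T Z →
  ∃ B : Ideal (𝓞 K), B ≠ ⊥ ∧ Ideal.span {α} = P * B ^ 2

/-- **ALP** (Mathlib only, 80 lines). `θ² = p m`, `p` odd, coprime to `m`. `P = (p, θ)`, `P² = (p² , p θ, p m) = (p)(p, θ, m) = (p)`.
The elements `α = (T + Y θ)/2`, `α' = (T - Y θ)/2` are algebraic integers (`α + α' = T`, `α α' = -p Z²`), and `2 α = T + Y θ`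
is in `P` (`p ∣ T`), so `α = p α - ((p - 1)/2) (2 α) ∈ P`, the same for `α'`. (`θ ≠ 0`.) -/
def S_ALP : Prop := ∀ (K : Type) [Field K] [NumberField K] (p m T Y Z : ℤ) (θ : 𝓞 K),
  Odd p → IsCoprime p m → θ ^ 2 = ((p * m : ℤ) : 𝓞 K) →
  T ^ 2 - p * m * Y ^ 2 = -4 * p * Z ^ 2 → p ∣ T →
  ∃ (P : Ideal (𝓞 K)) (α α' : 𝓞 K), P ^ 2 = Ideal.span {(p : 𝓞 K)} ∧ α ∈ P ∧ α' ∈ P ∧
    α + α' = (T : 𝓞 K) ∧ α * α' = -((p : 𝓞 K) * (Z : 𝓞 K) ^ 2)

/-- **SQU** (Mathlib only, 80 lines). Proof. `θ ∉ ℚ` (`∏ p_i` is not a square, `0 < t`), so `1, θ` is a basis of `K` over `ℚ`; `y = a + b θ`,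
`y² = a² + b² D + 2 a b θ ∈ ℚ`, so `a b = 0` and `ε ∏ p_i ^ e_i` is `a²` or `b² D`. Then `ε = 1` is clear by signs (`ε > 0`), and the
`p_i`-adic valuations (`padicValRat`) show that all `e_i` are even, or all are odd. -/
def S_SQU : Prop := ∀ (K : Type) [Field K] [NumberField K] (t : ℕ) (p : Fin t → ℕ) (θ y : K)
  (ε : ℚ) (e : Fin t → ℤ), 0 < t → Module.finrank ℚ K = 2 → Function.Injective p →
  (∀ i, (p i).Prime) → θ ^ 2 = ∏ i, (p i : K) → (ε = 1 ∨ ε = -1) →
  y ^ 2 = (ε : K) * ∏ i, (p i : K) ^ e i → ∀ i j, Even (e i - e j)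

end Pool.Agent.Run7.h892.CG
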